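import Pool.Agent.X177.MT.Rot

/-! # The operator formula satisfies the recursion for monotone triangles -/

set_option autoImplicit false

namespace Pool.Agent.X177.MT

open Finset

noncomputable section

lemma ev_monomial_mul {n : ℕ} (g : (Fin n → ℤ) → ℚ) (k : Fin n → ℤ) (e : Fin n →₀ ℕ)
    (p : MvPolynomial (Fin n) ℚ) :
    ev g k (MvPolynomial.monomial e 1 * p) = ev g (k + fun i => (e i : ℤ)) p := by
  refine lin_ext (f := (ev g k).comp (LinearMap.mulLeft ℚ (MvPolynomial.monomial e (1:ℚ))))
    (g := ev g (k + fun i => (e i : ℤ))) ?_ p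
  intro e'
  rw [LinearMap.comp_apply, LinearMap.mulLeft_apply, MvPolynomial.monomial_mul, ev_monomial,
    ev_monomial]
  simp only [one_mul]
  congr 1
  funext j
  simp only [Pi.add_apply, Finsupp.coe_add, Nat.cast_add]
  ring

/-- setting the variable `j` to one -/
def pj {n : ℕ} (j : Fin (n + 1)) : MvPolynomial (Fin (n + 1)) ℚ →ₐ[ℚ] MvPolynomial (Fin n) ℚ :=
  MvPolynomial.aeval (Fin.insertNth (α := fun _ => MvPolynomial (Fin n) ℚ) j 1 MvPolynomial.X)

lemma pj_self {n : ℕ} (j : Fin (n + 1)) : pj j (MvPolynomial.X j) = 1 := by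
  simp [pj]

lemma pj_succAbove {n : ℕ} (j : Fin (n + 1)) (i : Fin n) :
    pj j (MvPolynomial.X (j.succAbove i)) = MvPolynomial.X i := by
  simp [pj]

lemma ev_skip {n : ℕ} (h : (Fin n → ℤ) → ℚ) (j : Fin (n + 1)) (k : Fin (n + 1) → ℤ)
    (p : MvPolynomial (Fin (n + 1)) ℚ) :
    ev (fun m => h (m ∘ j.succAbove)) k p = ev h (k ∘ j.succAbove) (pj j p) := by
  refine lin_ext (f := ev (fun m => h (m ∘ j.succAbove)) k)
    (g := (ev h (k ∘ j.succAbove)).comp (pj j).toLinearMap) ?_ p
  intro e
  rw [ev_monomial, LinearMap.comp_apply, AlgHom.toLinearMap_apply]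
  have h1 : pj j (MvPolynomial.monomial e 1) =
      MvPolynomial.monomial (Finsupp.equivFunOnFinite.symm fun i => e (j.succAbove i)) 1 := by
    rw [MvPolynomial.monomial_eq, MvPolynomial.monomial_eq, Finsupp.prod_fintype _ _ (by simp),
      Finsupp.prod_fintype _ _ (by simp), Fin.prod_univ_succAbove _ j]
    simp only [map_mul, map_pow, pj_self, map_one, one_pow, one_mul, map_prod, pj_succAbove,
      Finsupp.equivFunOnFinite_symm_apply_apply]
  rw [h1, ev_monomial]
  simp only [one_mul]
  congr 1

lemma pj_SS {n : ℕ} (j : Fin (n + 1)) : pj j (SS (n + 1)) =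
    (∏ i : Fin n, if j < j.succAbove i then MvPolynomial.X i else 1) * SS n := by
  rw [SS, Fin.prod_univ_succAbove _ j, Fin.prod_univ_succAbove _ j, if_neg (lt_irrefl _), one_mul,
    map_mul, map_prod, map_prod]
  congr 1
  · refine Finset.prod_congr rfl fun q _ => ?_
    split_ifs
    · simp only [Sf, map_add, map_sub, map_mul, map_one, pj_self, pj_succAbove]
      ring
    · rw [map_one]
  · rw [SS]
    refine Finset.prod_congr rfl fun p _ => ?_
    rw [Fin.prod_univ_succAbove _ j, map_mul, map_prod]
    have h1 : pj j (if j.succAbove p < j then Sf (j.succAbove p) j else 1) = 1 := by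
      split_ifs
      · simp only [Sf, map_add, map_sub, map_mul, map_one, pj_self, pj_succAbove]
        ring
      · rw [map_one]
    rw [h1, one_mul]
    refine Finset.prod_congr rfl fun q _ => ?_
    simp only [Fin.succAbove_lt_succAbove_iff]
    split_ifs
    · simp only [Sf, map_add, map_sub, map_mul, map_one, pj_succAbove]
    · rw [map_one]

/-- the tuple `k` without `k_j` and with the entries after it increased by one -/
def ka {n : ℕ} (j : Fin (n + 1)) (k : Fin (n + 1) → ℤ) (i : Fin n) : ℤ :=
  if i.castSucc < j then k i.castSucc else k i.succ + 1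

lemma ka_eq {n : ℕ} (j : Fin (n + 1)) (k : Fin (n + 1) → ℤ) (i : Fin n) :
    ka j k i = k (j.succAbove i) + if j < j.succAbove i then 1 else 0 := by
  unfold ka
  by_cases h : i.castSucc < j
  · rw [if_pos h, Fin.succAbove_of_castSucc_lt _ _ h, if_neg (not_lt.2 h.le), add_zero]
  · rw [if_neg h, Fin.succAbove_of_le_castSucc _ _ (not_lt.1 h), if_pos]
    rw [not_lt] at h
    exact lt_of_le_of_lt h (Fin.castSucc_lt_succ)

/-- alternating sum over the omitted entry -/
def CC {n : ℕ} (h : (Fin n → ℤ) → ℚ) (k : Fin (n + 1) → ℤ) : ℚ :=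
  ∑ j : Fin (n + 1), (-1) ^ (j : ℕ) * h (ka j k)

theorem W_GG_succ (n : ℕ) (k : Fin (n + 1) → ℤ) : W (GG (n + 1)) k = CC (W (HH n)) k := by
  have h1 : GG (n + 1) = fun m => ∑ j ∈ (Finset.univ : Finset (Fin (n + 1))),
      (-1) ^ (j : ℕ) * HH n (m ∘ j.succAbove) := funext fun m => GG_succ n m
  rw [W, h1, ev_sum, CC]
  refine Finset.sum_congr rfl fun j _ => ?_
  have h2 := ev_smul (fun m => HH n (m ∘ j.succAbove)) ((-1) ^ (j : ℕ)) k (SS (n + 1))
  rw [h2, ev_skip, pj_SS, W]
  congr 1
  have h3 : (∏ i : Fin n, if j < j.succAbove i then MvPolynomial.X i else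
      (1 : MvPolynomial (Fin n) ℚ)) = MvPolynomial.monomial
      (Finsupp.equivFunOnFinite.symm fun i => if j < j.succAbove i then 1 else 0) 1 := by
    rw [MvPolynomial.monomial_eq, Finsupp.prod_fintype _ _ (by simp)]
    simp only [map_one, one_mul, Finsupp.equivFunOnFinite_symm_apply_apply]
    refine Finset.prod_congr rfl fun i _ => ?_
    split_ifs <;> simp
  rw [h3, ev_monomial_mul]
  congr 1
  congr 1
  funext i
  simp only [Pi.add_apply, Function.comp_apply, Finsupp.equivFunOnFinite_symm_apply_apply, ka_eq]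
  split_ifs <;> simp

/-- the full difference -/
def DD {n : ℕ} (h : (Fin n → ℤ) → ℚ) (m : Fin n → ℤ) : ℚ :=
  ev h m (∏ q, (MvPolynomial.X q - 1))

lemma DD_W_HH (n : ℕ) (l : Fin n → ℤ) : DD (W (HH n)) l = W (GG n) l := by
  have h1 : GG n = fun m => ev (HH n) m (∏ q, (MvPolynomial.X q - 1)) :=
    funext fun m => GG_eq_ev n m
  rw [DD, W, h1, ev_ev]
  have h2 : W (HH n) = fun m => ev (HH n) m (SS n) := rfl
  rw [h2, ev_ev, mul_comm]

/-- sections -/
def sec {n : ℕ} (h : (Fin (n + 1) → ℤ) → ℚ) (y : ℤ) (m : Fin n → ℤ) : ℚ := h (Fin.snoc m y)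

/-- the two-term relation -/
def RR {n : ℕ} (h : (Fin n → ℤ) → ℚ) : Prop :=
  ∀ (i j : Fin n), (j : ℕ) = i + 1 → ∀ k : Fin n → ℤ, k i = k j →
    h (k + un j) = h k + h (k + un i + un j)

lemma snoc_add_un {n : ℕ} (m : Fin n → ℤ) (y : ℤ) (i : Fin n) :
    (Fin.snoc (m + un i) y : Fin (n + 1) → ℤ) = Fin.snoc m y + un i.castSucc := by
  funext l
  refine Fin.lastCases ?_ (fun l => ?_) l
  · simp [un, Fin.snoc_last]
  · rw [Pi.add_apply, Fin.snoc_castSucc, Fin.snoc_castSucc, Pi.add_apply]
    congr 1
    unfold un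
    by_cases h : l = i
    · subst h
      simp
    · rw [Pi.single_eq_of_ne h, Pi.single_eq_of_ne]
      simpa using h

lemma snoc_add_last {n : ℕ} (m : Fin n → ℤ) (y : ℤ) :
    (Fin.snoc m (y + 1) : Fin (n + 1) → ℤ) = Fin.snoc m y + un (Fin.last n) := by
  funext l
  refine Fin.lastCases ?_ (fun l => ?_) l
  · simp [un]
  · rw [Pi.add_apply, Fin.snoc_castSucc, Fin.snoc_castSucc]
    unfold un
    rw [Pi.single_eq_of_ne (Fin.castSucc_lt_last l).ne, add_zero]

lemma RR.sec {n : ℕ} {h : (Fin (n + 1) → ℤ) → ℚ} (hh : RR h) (y : ℤ) : RR (sec h y) := by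
  intro i j hij k hk
  have h1 := hh i.castSucc j.castSucc (by simpa using hij) (Fin.snoc k y) (by simpa using hk)
  simp only [MT.sec]
  rw [snoc_add_un, snoc_add_un, snoc_add_un]
  exact h1

lemma ev_snoc {n : ℕ} (h : (Fin (n + 1) → ℤ) → ℚ) (y : ℤ) (m : Fin n → ℤ)
    (p : MvPolynomial (Fin n) ℚ) :
    ev h (Fin.snoc m y) (MvPolynomial.rename Fin.castSucc p) = ev (sec h y) m p := by
  refine lin_ext (f := (ev h (Fin.snoc m y)).comp (MvPolynomial.rename Fin.castSucc).toLinearMap)
    (g := ev (sec h y) m) ?_ p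
  intro e
  rw [LinearMap.comp_apply, AlgHom.toLinearMap_apply, MvPolynomial.rename_monomial, ev_monomial,
    ev_monomial]
  simp only [MT.sec]
  congr 2
  funext l
  refine Fin.lastCases ?_ (fun l => ?_) l
  · rw [Pi.add_apply, Fin.snoc_last, Fin.snoc_last, Finsupp.mapDomain_of_notMem_range]
    · simp
    · rintro ⟨i, hi⟩
      exact absurd hi (Fin.castSucc_lt_last i).ne
  · rw [Pi.add_apply, Fin.snoc_castSucc, Fin.snoc_castSucc, Pi.add_apply,
      Finsupp.mapDomain_apply (Fin.castSucc_injective n)]

lemma DD_snoc {n : ℕ} (h : (Fin (n + 1) → ℤ) → ℚ) (y : ℤ) (l : Fin n → ℤ) :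
    DD h (Fin.snoc l y) = DD (sec h (y + 1)) l - DD (sec h y) l := by
  rw [DD, Fin.prod_univ_castSucc, mul_comm, ev_sub_mul, ← snoc_add_last]
  have h1 : (∏ q : Fin n, (MvPolynomial.X q.castSucc - 1) : MvPolynomial (Fin (n + 1)) ℚ) =
      MvPolynomial.rename Fin.castSucc (∏ q : Fin n, (MvPolynomial.X q - 1)) := by
    simp
  rw [h1, ev_snoc, ev_snoc]
  rfl

/-- interlacing strictly increasing rows -/
def IL {n : ℕ} (k : Fin (n + 1) → ℤ) : Finset (Fin n → ℤ) :=
  (Fintype.piFinset fun i : Fin n => Finset.Icc (k i.castSucc) (k i.succ)).filter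
    fun l => StrictMono l

lemma mem_IL {n : ℕ} {k : Fin (n + 1) → ℤ} {l : Fin n → ℤ} :
    l ∈ IL k ↔ (∀ i, k i.castSucc ≤ l i ∧ l i ≤ k i.succ) ∧ StrictMono l := by
  simp [IL, Fintype.mem_piFinset]

lemma strictMono_snoc {n : ℕ} {l : Fin n → ℤ} {y : ℤ} :
    StrictMono (Fin.snoc l y : Fin (n + 1) → ℤ) ↔ StrictMono l ∧ ∀ i, l i < y := by
  constructor
  · intro h
    refine ⟨fun i j hij => ?_, fun i => ?_⟩
    · have := h (Fin.castSucc_lt_castSucc_iff.2 hij)
      simpa using this
    · have := h (Fin.castSucc_lt_last i)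
      simpa using this
  · rintro ⟨h1, h2⟩ i j hij
    revert hij
    refine Fin.lastCases ?_ (fun j => ?_) j
    · refine Fin.lastCases ?_ (fun i => ?_) i
      · intro h
        exact absurd h (lt_irrefl _)
      · intro _
        simpa using h2 i
    · refine Fin.lastCases ?_ (fun i => ?_) i
      · intro h
        exact absurd h (not_lt.2 (Fin.castSucc_lt_last j).le)
      · intro h
        simpa using h1 (Fin.castSucc_lt_castSucc_iff.1 h)

lemma tele {φ : ℤ → ℚ} {x z : ℤ} (h : x ≤ z) :
    ∑ y ∈ Finset.Ioc x z, (φ (y + 1) - φ y) = φ (z + 1) - φ (x + 1) := by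
  induction z, h using Int.leInduction with
  | base => simp
  | succ z hz ih =>
    have h1 : Finset.Ioc x (z + 1) = insert (z + 1) (Finset.Ioc x z) := by
      ext y
      simp only [Finset.mem_Ioc, Finset.mem_insert]
      omega
    rw [h1, Finset.sum_insert (by simp), ih]
    ring

lemma sum_IL {n : ℕ} (k : Fin (n + 2) → ℤ)
    (hk : k (Fin.last n).castSucc ≤ k (Fin.last (n + 1))) (F : (Fin (n + 1) → ℤ) → ℚ) :
    ∑ l ∈ IL k, F l = (∑ y ∈ Finset.Ioc (k (Fin.last n).castSucc) (k (Fin.last (n + 1))),
      ∑ l ∈ IL (k ∘ Fin.castSucc), F (Fin.snoc l y)) +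
      ∑ l ∈ IL (Function.update (k ∘ Fin.castSucc) (Fin.last n) (k (Fin.last n).castSucc - 1)),
        F (Fin.snoc l (k (Fin.last n).castSucc)) := by
  set x := k (Fin.last n).castSucc with hx
  set z := k (Fin.last (n + 1)) with hz
  rw [← Finset.sum_filter_add_sum_filter_not (IL k) (fun l => x < l (Fin.last n))]
  congr 1
  · rw [← Finset.sum_product']
    refine Finset.sum_nbij' (fun l => (l (Fin.last n), Fin.init l))
      (fun q => Fin.snoc q.2 q.1) ?_ ?_ ?_ ?_ ?_
    · intro l hl
      rw [Finset.mem_filter, mem_IL] at hl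
      obtain ⟨⟨h1, h2⟩, h3⟩ := hl
      rw [Finset.mem_product, Finset.mem_Ioc, mem_IL]
      refine ⟨⟨h3, (h1 (Fin.last n)).2⟩, fun i => ?_, fun i j hij => ?_⟩
      · exact h1 i.castSucc
      · exact h2 (Fin.castSucc_lt_castSucc_iff.2 hij)
    · rintro ⟨y, l⟩ hq
      rw [Finset.mem_product, Finset.mem_Ioc, mem_IL] at hq
      obtain ⟨⟨h1, h2⟩, h3, h4⟩ := hq
      simp only at h1 h2 h3 h4
      rw [Finset.mem_filter, mem_IL]
      refine ⟨⟨fun i => ?_, ?_⟩, by simpa using h1⟩
      · refine Fin.lastCases ?_ (fun i => ?_) i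
        · simp only [Fin.snoc_last]
          exact ⟨h1.le, h2⟩
        · simp only [Fin.snoc_castSucc]
          exact h3 i
      · rw [strictMono_snoc]
        refine ⟨h4, fun i => lt_of_le_of_lt ((h3 i).2.trans ?_) h1⟩
        -- entries of the last row are at most `x`
        have h5 : ∀ i : Fin n, (k ∘ Fin.castSucc) i.succ ≤ x := by
          intro i
          have h6 : ∀ (a : ℕ) (i : Fin n), (i : ℕ) + a + 1 = n → l i ≤ x := by
            intro a
            induction a with
            | zero =>
              intro i hi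
              have := (h3 i).2
              have e : i.succ = Fin.last n := Fin.ext (by simp; omega)
              rw [e] at this
              exact this
            | succ a ih =>
              intro i hi
              have hi' : (i : ℕ) + 1 < n := by omega
              have := ih ⟨i + 1, hi'⟩ (by simp; omega)
              exact (h4 (show i < ⟨i + 1, hi'⟩ by rw [Fin.lt_def]; simp)).le.trans this
          by_cases hi : (i : ℕ) + 1 = n
          · have e : i.succ = Fin.last n := Fin.ext (by simp; omega)
            rw [e]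
            exact le_of_eq rfl
          · have hi' : (i : ℕ) + 1 < n := by omega
            have h7 := (h3 ⟨i + 1, hi'⟩).1
            have e : (⟨i + 1, hi'⟩ : Fin n).castSucc = i.succ := Fin.ext (by simp)
            rw [e] at h7
            exact h7.trans (h6 (n - (i + 1) - 1) ⟨i + 1, hi'⟩ (by simp; omega))
        exact h5 i
    · intro l _
      exact Fin.snoc_init_self l
    · rintro ⟨y, l⟩ _
      simp
    · intro l _
      simp
  · refine Finset.sum_nbij' (fun l => Fin.init l) (fun l => Fin.snoc l x) ?_ ?_ ?_ ?_ ?_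
    · intro l hl
      rw [Finset.mem_filter, mem_IL] at hl
      obtain ⟨⟨h1, h2⟩, h3⟩ := hl
      have h4 : l (Fin.last n) = x := le_antisymm (not_lt.1 h3) (h1 (Fin.last n)).1
      rw [mem_IL]
      refine ⟨fun i => ⟨?_, ?_⟩, fun i j hij => h2 (Fin.castSucc_lt_castSucc_iff.2 hij)⟩
      · rw [Function.update_of_ne (Fin.castSucc_lt_last i).ne]
        exact (h1 i.castSucc).1
      · by_cases hi : i.succ = Fin.last n
        · rw [hi, Function.update_self]
          have := h2 (Fin.castSucc_lt_last i)
          rw [h4] at this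
          have h5 : Fin.init l i = l i.castSucc := rfl
          rw [h5]
          omega
        · rw [Function.update_of_ne hi]
          exact (h1 i.castSucc).2
    · intro l hl
      rw [mem_IL] at hl
      obtain ⟨h3, h4⟩ := hl
      have h6 : ∀ (a : ℕ) (i : Fin n), (i : ℕ) + a + 1 = n → l i < x := by
        intro a
        induction a with
        | zero =>
          intro i hi
          have := (h3 i).2
          have e : i.succ = Fin.last n := Fin.ext (by simp; omega)
          rw [e, Function.update_self] at this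
          omega
        | succ a ih =>
          intro i hi
          have hi' : (i : ℕ) + 1 < n := by omega
          have := ih ⟨i + 1, hi'⟩ (by simp; omega)
          exact (h4 (show i < ⟨i + 1, hi'⟩ by rw [Fin.lt_def]; simp)).trans this
      have h7 : ∀ i : Fin n, l i < x := fun i => h6 (n - i - 1) i (by omega)
      rw [Finset.mem_filter, mem_IL]
      refine ⟨⟨fun i => ?_, ?_⟩, by simp⟩
      · refine Fin.lastCases ?_ (fun i => ?_) i
        · simp only [Fin.snoc_last]
          exact ⟨le_refl _, hk⟩
        · simp only [Fin.snoc_castSucc]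
          have h8 := h3 i
          rw [Function.update_of_ne (Fin.castSucc_lt_last i).ne] at h8
          refine ⟨h8.1, ?_⟩
          by_cases hi : i.succ = Fin.last n
          · have h9 := h7 i
            have e : k i.castSucc.succ = x := by
              rw [Fin.succ_castSucc, hi]
            rw [e]
            exact h9.le
          · have h9 := h8.2
            rw [Function.update_of_ne hi] at h9
            exact h9
      · rw [strictMono_snoc]
        exact ⟨h4, h7⟩
    · intro l hl
      rw [Finset.mem_filter, mem_IL] at hl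
      obtain ⟨⟨h1, h2⟩, h3⟩ := hl
      have h4 : l (Fin.last n) = x := le_antisymm (not_lt.1 h3) (h1 (Fin.last n)).1
      rw [← h4]
      exact Fin.snoc_init_self l
    · intro l _
      simp
    · intro l hl
      rw [Finset.mem_filter, mem_IL] at hl
      obtain ⟨⟨h1, h2⟩, h3⟩ := hl
      have h4 : l (Fin.last n) = x := le_antisymm (not_lt.1 h3) (h1 (Fin.last n)).1
      rw [← h4, Fin.snoc_init_self l]

lemma ka_last {n : ℕ} (k : Fin (n + 1) → ℤ) : ka (Fin.last n) k = k ∘ Fin.castSucc := by
  funext i
  simp [ka, Fin.castSucc_lt_last]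

lemma ka_castSucc {n : ℕ} (j : Fin (n + 1)) (k : Fin (n + 2) → ℤ) :
    ka j.castSucc k = (Fin.snoc (ka j (k ∘ Fin.castSucc)) (k (Fin.last (n + 1)) + 1) :
      Fin (n + 1) → ℤ) := by
  funext i
  refine Fin.lastCases ?_ (fun i => ?_) i
  · rw [Fin.snoc_last, ka, if_neg]
    · rfl
    · rw [Fin.castSucc_lt_castSucc_iff, not_lt]
      exact Fin.le_last j
  · rw [Fin.snoc_castSucc, ka, ka]
    simp only [Fin.castSucc_lt_castSucc_iff, Function.comp_apply]
    rfl

lemma CC_succ {n : ℕ} (h : (Fin (n + 1) → ℤ) → ℚ) (k : Fin (n + 2) → ℤ) :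
    CC h k = CC (sec h (k (Fin.last (n + 1)) + 1)) (k ∘ Fin.castSucc) +
      (-1) ^ (n + 1) * h (k ∘ Fin.castSucc) := by
  rw [CC, Fin.sum_univ_castSucc, CC, ka_last]
  congr 1
  refine Finset.sum_congr rfl fun j _ => ?_
  rw [ka_castSucc]
  rfl

theorem CC_eq_sum : ∀ (n : ℕ) (h : (Fin n → ℤ) → ℚ), RR h → ∀ k : Fin (n + 1) → ℤ,
    (∀ i j : Fin (n + 1), i < j → j ≠ Fin.last n → k i < k j) →
    (∀ i : Fin (n + 1), k i ≤ k (Fin.last n)) → CC h k = ∑ l ∈ IL k, DD h l := by
  intro n
  induction n with
  | zero =>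
    intro h _ k _ _
    have h1 : IL k = {Fin.elim0} := by
      ext l
      simp only [mem_IL, Finset.mem_singleton]
      constructor
      · intro _
        exact Subsingleton.elim _ _
      · intro _
        exact ⟨fun i => i.elim0, fun i => i.elim0⟩
    rw [h1, Finset.sum_singleton, CC, Fin.sum_univ_one, DD]
    simp only [Fin.val_zero, pow_zero, one_mul, Finset.univ_eq_empty, Finset.prod_empty, ev_one]
    congr 1
    exact Subsingleton.elim _ _
  | succ n ih =>
    intro h hh k hk1 hk2
    have hxz : k (Fin.last n).castSucc ≤ k (Fin.last (n + 1)) := hk2 _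
    rw [sum_IL k hxz]
    set x := k (Fin.last n).castSucc with hx
    set z := k (Fin.last (n + 1)) with hz
    set k0 : Fin (n + 1) → ℤ := k ∘ Fin.castSucc with hk0
    set k1 : Fin (n + 1) → ℤ := Function.update k0 (Fin.last n) (x - 1) with hk1e
    have hmono : ∀ i j : Fin (n + 1), i < j → k0 i < k0 j := fun i j hij =>
      hk1 _ _ (Fin.castSucc_lt_castSucc_iff.2 hij) (Fin.castSucc_lt_last j).ne
    have hC0 : ∀ y, CC (sec h y) k0 = ∑ l ∈ IL k0, DD (sec h y) l := fun y =>
      ih (sec h y) (hh.sec y) k0 (fun i j hij _ => hmono i j hij) (fun i => by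
        rcases eq_or_lt_of_le (Fin.le_last i) with hi | hi
        · rw [hi]
        · exact (hmono _ _ hi).le)
    have hC1 : ∀ y, CC (sec h y) k1 = ∑ l ∈ IL k1, DD (sec h y) l := fun y =>
      ih (sec h y) (hh.sec y) k1 (fun i j hij hj => by
        have hi : i ≠ Fin.last n := (lt_of_lt_of_le hij (Fin.le_last j)).ne
        rw [hk1e, Function.update_of_ne hi, Function.update_of_ne hj]
        exact hmono i j hij) (fun i => by
        rw [hk1e, Function.update_self]
        rcases eq_or_lt_of_le (Fin.le_last i) with hi | hi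
        · rw [hi, Function.update_self]
        · rw [Function.update_of_ne hi.ne]
          have := hmono _ _ hi
          have e : k0 (Fin.last n) = x := rfl
          rw [e] at this
          omega)
    simp only [DD_snoc]
    have hS1 : ∑ y ∈ Finset.Ioc x z, ∑ l ∈ IL k0, (DD (sec h (y + 1)) l - DD (sec h y) l) =
        CC (sec h (z + 1)) k0 - CC (sec h (x + 1)) k0 := by
      rw [← tele (φ := fun y => CC (sec h y) k0) hxz]
      refine Finset.sum_congr rfl fun y _ => ?_
      rw [Finset.sum_sub_distrib, hC0, hC0]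
    have hS2 : ∑ l ∈ IL k1, (DD (sec h (x + 1)) l - DD (sec h x) l) =
        CC (sec h (x + 1)) k1 - CC (sec h x) k1 := by
      rw [Finset.sum_sub_distrib, hC1, hC1]
    rw [hS1, hS2, CC_succ]
    -- remaining identity
    have hkey : CC (sec h (x + 1)) k1 - CC (sec h x) k1 - CC (sec h (x + 1)) k0 =
        (-1) ^ (n + 1) * h k0 := by
      simp only [CC]
      rw [← Finset.sum_sub_distrib, ← Finset.sum_sub_distrib]
      rw [Finset.sum_eq_single (Fin.last n)]
      · rw [ka_last, ka_last]
        have e1 : k1 ∘ Fin.castSucc = k0 ∘ Fin.castSucc := by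
          funext i
          simp only [Function.comp_apply, hk1e]
          rw [Function.update_of_ne (Fin.castSucc_lt_last i).ne]
        rw [e1]
        have e2 : sec h x (k0 ∘ Fin.castSucc) = h k0 := by
          simp only [sec]
          congr 1
          exact Fin.snoc_init_self k0
        rw [e2]
        simp only [Fin.val_last]
        ring
      · intro j _ hj
        have hjl : (j : ℕ) < n := by
          have := Fin.val_lt_last hj
          exact this
        have hi : n - 1 < n := by omega
        -- the two last arguments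
        set m : Fin (n + 1) → ℤ := Fin.snoc (ka j k1) x with hm
        have hR := hh ⟨n - 1, by omega⟩ (Fin.last n) (by simp; omega) m (by
          have e1 : (⟨n - 1, by omega⟩ : Fin (n + 1)) = (⟨n - 1, hi⟩ : Fin n).castSucc := rfl
          rw [e1, hm, Fin.snoc_castSucc, Fin.snoc_last, ka, if_neg]
          · have e2 : (⟨n - 1, hi⟩ : Fin n).succ = Fin.last n := Fin.ext (by simp; omega)
            rw [e2, hk1e, Function.update_self]
            ring
          · rw [not_lt, Fin.le_def]
            simp
            omega)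
        have e1 : m + un (Fin.last n) = Fin.snoc (ka j k1) (x + 1) := by
          rw [hm, ← snoc_add_last]
        have e2 : m + un ⟨n - 1, by omega⟩ + un (Fin.last n) = Fin.snoc (ka j k0) (x + 1) := by
          have e3 : (⟨n - 1, by omega⟩ : Fin (n + 1)) = (⟨n - 1, hi⟩ : Fin n).castSucc := rfl
          rw [e3, hm, ← snoc_add_un, ← snoc_add_last]
          congr 1
          funext i
          rw [Pi.add_apply, ka, ka]
          by_cases hc : i.castSucc < j
          · rw [if_pos hc, if_pos hc, hk1e, Function.update_of_ne (Fin.castSucc_lt_last i).ne, un,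
              Pi.single_eq_of_ne, add_zero]
            intro h'
            rw [h', Fin.lt_def] at hc
            simp at hc
            omega
          · rw [if_neg hc, if_neg hc]
            by_cases hin : i = ⟨n - 1, hi⟩
            · have e4 : i.succ = Fin.last n := by rw [hin]; exact Fin.ext (by simp; omega)
              rw [e4, hk1e, Function.update_self, hin, un, Pi.single_eq_same]
              have e5 : k0 (Fin.last n) = x := rfl
              rw [e5]
              ring
            · have e4 : i.succ ≠ Fin.last n := by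
                intro h'
                apply hin
                apply Fin.ext
                have := congrArg Fin.val h'
                simp at this
                simp
                omega
              rw [hk1e, Function.update_of_ne e4, un, Pi.single_eq_of_ne hin, add_zero]
        rw [e1, e2] at hR
        simp only [sec]
        rw [hR]
        ring
      · simp
    linarith

/-- the recursion over the rows -/
theorem W_rec (n : ℕ) (k : Fin (n + 1) → ℤ) (hk : StrictMono k) :
    W (GG (n + 1)) k = ∑ l ∈ IL k, W (GG n) l := by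
  rw [W_GG_succ, CC_eq_sum n (W (HH n)) (fun i j hij k hk => W_R2 (anti_HH n) i j hij k hk) k
    (fun i j hij _ => hk hij) (fun i => hk.monotone (Fin.le_last i))]
  exact Finset.sum_congr rfl fun l _ => DD_W_HH n l

lemma W_zero (k : Fin 0 → ℤ) : W (GG 0) k = 1 := by
  rw [W, SS, Finset.univ_eq_empty, Finset.prod_empty, ev_one, GG, Matrix.det_isEmpty]

end

end Pool.Agent.X177.MT
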