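import Pool.Agent.X177.MT.Ev

/-! # The binomial determinants -/

set_option autoImplicit false

namespace Pool.Agent.X177.MT

open Finset MvPolynomial

noncomputable section

/-- binomial coefficient polynomials -/
def bp : ℕ → Polynomial ℚ
  | 0 => 1
  | (i + 1) => Polynomial.C (1 / ((i : ℚ) + 1)) * bp i * (Polynomial.X - Polynomial.C (i : ℚ))

/-- binomial coefficient -/
def bv (i : ℕ) (x : ℤ) : ℚ := (bp i).eval (x : ℚ)

lemma bv_zero (x : ℤ) : bv 0 x = 1 := by simp [bv, bp]

lemma bv_succ (i : ℕ) (x : ℤ) : bv (i + 1) x = bv i x * ((x : ℚ) - i) / ((i : ℚ) + 1) := by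
  simp only [bv, bp, Polynomial.eval_mul, Polynomial.eval_C, Polynomial.eval_sub, Polynomial.eval_X]
  ring

lemma bv_diff (i : ℕ) (x : ℤ) : bv (i + 1) (x + 1) = bv (i + 1) x + bv i x := by
  induction i generalizing x with
  | zero =>
    simp only [bv_succ, bv_zero]
    push_cast
    ring
  | succ i ih =>
    rw [bv_succ (i + 1) (x + 1), ih, bv_succ (i + 1) x, bv_succ i x]
    have h1 : ((i : ℚ) + 1) ≠ 0 := by positivity
    have h2 : ((i : ℚ) + 1 + 1) ≠ 0 := by positivity
    push_cast
    field_simp
    ring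

/-- the Vandermonde determinant `∏ (m_j - m_i) / (j - i)` -/
def GG (n : ℕ) (m : Fin n → ℤ) : ℚ := Matrix.det (Matrix.of fun q i : Fin n => bv i (m q))

/-- its antiderivative -/
def HH (n : ℕ) (m : Fin n → ℤ) : ℚ := Matrix.det (Matrix.of fun q i : Fin n => bv (i + 1) (m q))

lemma anti_det {n : ℕ} (φ : ℤ → Fin n → ℚ) :
    Anti fun m : Fin n → ℤ => Matrix.det (Matrix.of fun q i : Fin n => φ (m q) i) := by
  intro σ m
  exact Matrix.det_permute σ (Matrix.of fun q i : Fin n => φ (m q) i)

lemma anti_GG (n : ℕ) : Anti (GG n) := anti_det fun x i => bv i x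

lemma anti_HH (n : ℕ) : Anti (HH n) := anti_det fun x i => bv (i + 1) x

lemma GG_succ (n : ℕ) (m : Fin (n + 1) → ℤ) :
    GG (n + 1) m = ∑ j : Fin (n + 1), (-1) ^ (j : ℕ) * HH n (m ∘ j.succAbove) := by
  rw [GG, Matrix.det_succ_column_zero]
  refine Finset.sum_congr rfl fun j _ => ?_
  rw [Matrix.of_apply, Fin.val_zero, bv_zero, mul_one, HH]
  congr 2

lemma ev_sub_mul {n : ℕ} (g : (Fin n → ℤ) → ℚ) (k : Fin n → ℤ) (a : Fin n)
    (p : MvPolynomial (Fin n) ℚ) :
    ev g k ((X a - 1) * p) = ev g (k + un a) p - ev g k p := by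
  rw [sub_mul, one_mul, map_sub, ev_X_mul]

lemma ev_det {n : ℕ} (φ φ' : ℤ → Fin n → ℚ) (hφ : ∀ x i, φ (x + 1) i = φ x i + φ' x i)
    (J : Finset (Fin n)) : ∀ m : Fin n → ℤ,
    ev (fun m => Matrix.det (Matrix.of fun q i : Fin n => φ (m q) i)) m (∏ q ∈ J, (X q - 1)) =
      Matrix.det (Matrix.of fun q i : Fin n => if q ∈ J then φ' (m q) i else φ (m q) i) := by
  induction J using Finset.induction_on with
  | empty =>
    intro m
    rw [Finset.prod_empty, ev_one]
    simp
  | insert a J ha ih =>
    intro m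
    rw [Finset.prod_insert ha, ev_sub_mul, ih, ih]
    set M : Matrix (Fin n) (Fin n) ℚ :=
      Matrix.of fun q i : Fin n => if q ∈ J then φ' (m q) i else φ (m q) i with hM
    have e1 : (Matrix.of fun q i : Fin n => if q ∈ J then φ' ((m + un a) q) i else
        φ ((m + un a) q) i) = M.updateRow a (φ (m a) + φ' (m a)) := by
      ext q i
      by_cases hq : q = a
      · subst hq
        rw [Matrix.updateRow_self, Matrix.of_apply, if_neg ha, Pi.add_apply, Pi.add_apply, un,
          Pi.single_eq_same, hφ]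
      · rw [Matrix.updateRow_ne hq, hM, Matrix.of_apply, Matrix.of_apply, Pi.add_apply, un,
          Pi.single_eq_of_ne hq, add_zero]
    have e2 : M.updateRow a (φ (m a)) = M := by
      ext q i
      by_cases hq : q = a
      · subst hq
        rw [Matrix.updateRow_self, hM, Matrix.of_apply, if_neg ha]
      · rw [Matrix.updateRow_ne hq]
    have e3 : M.updateRow a (φ' (m a)) = Matrix.of fun q i : Fin n =>
        if q ∈ insert a J then φ' (m q) i else φ (m q) i := by
      ext q i
      by_cases hq : q = a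
      · subst hq
        rw [Matrix.updateRow_self, Matrix.of_apply, if_pos (Finset.mem_insert_self _ _)]
      · rw [Matrix.updateRow_ne hq, hM, Matrix.of_apply, Matrix.of_apply]
        simp [hq]
    rw [e1, Matrix.det_updateRow_add, e2, e3]
    ring

/-- `∏ Δ_q` of the antiderivative -/
lemma GG_eq_ev (n : ℕ) (m : Fin n → ℤ) : GG n m = ev (HH n) m (∏ q, (X q - 1)) := by
  have h := ev_det (n := n) (fun x i => bv (i + 1) x) (fun x i => bv i x)
    (fun x i => bv_diff i x) Finset.univ m
  simp only [Finset.mem_univ, if_true] at h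
  exact h.symm

/-- row of `GG` shifted -/
def bs {n : ℕ} (x : ℤ) (i : Fin n) : ℚ := if (i : ℕ) = 0 then 0 else bv (i - 1) x

lemma bv_bs {n : ℕ} (x : ℤ) (i : Fin n) : bv i (x + 1) = bv i x + bs x i := by
  unfold bs
  rcases Nat.eq_zero_or_pos (i : ℕ) with h | h
  · rw [if_pos h, h, bv_zero, bv_zero, add_zero]
  · rw [if_neg h.ne']
    obtain ⟨l, hl⟩ : ∃ l, (i : ℕ) = l + 1 := ⟨i - 1, by omega⟩
    rw [hl, bv_diff]
    simp

lemma det_shift {n : ℕ} (m : Fin n → ℤ) (t : ℚ) :
    Matrix.det (Matrix.of fun q i : Fin n => bv i (m q) + t * bs (m q) i) = GG n m := by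
  set A : Matrix (Fin n) (Fin n) ℚ := Matrix.of fun l i =>
    if l = i then 1 else if (l : ℕ) + 1 = i then t else 0 with hA
  have h1 : (Matrix.of fun q i : Fin n => bv i (m q) + t * bs (m q) i) =
      (Matrix.of fun q i : Fin n => bv i (m q)) * A := by
    ext q i
    rw [Matrix.mul_apply]
    simp only [Matrix.of_apply, hA]
    have h2 : ∀ l : Fin n, bv l (m q) * (if l = i then (1:ℚ) else if (l : ℕ) + 1 = i then t else 0) =
        (if l = i then bv l (m q) else 0) + (if (l : ℕ) + 1 = i then t * bv l (m q) else 0) := by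
      intro l
      by_cases hl : l = i
      · subst hl
        simp
      · by_cases hl' : (l : ℕ) + 1 = i
        · rw [if_neg hl, if_pos hl', if_neg hl, if_pos hl']
          ring
        · rw [if_neg hl, if_neg hl', if_neg hl, if_neg hl']
          ring
    rw [Finset.sum_congr rfl fun l _ => h2 l, Finset.sum_add_distrib, Finset.sum_ite_eq' ]
    simp only [Finset.mem_univ, if_true]
    congr 1
    unfold bs
    rcases Nat.eq_zero_or_pos (i : ℕ) with h | h
    · rw [if_pos h, mul_zero]
      symm
      apply Finset.sum_eq_zero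
      intro l _
      rw [if_neg (by omega)]
    · rw [if_neg h.ne']
      rw [Finset.sum_eq_single (⟨i - 1, by omega⟩ : Fin n)]
      · rw [if_pos (by simp; omega)]
      · intro l _ hl
        rw [if_neg]
        intro h'
        apply hl
        apply Fin.ext
        simp only
        omega
      · simp
  rw [h1, Matrix.det_mul]
  have h3 : A.det = 1 := by
    rw [Matrix.det_of_isUpperTriangular]
    · apply Finset.prod_eq_one
      intro i _
      simp [hA]
    · intro i j hij
      simp only [id] at hij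
      simp only [hA, Matrix.of_apply]
      rw [if_neg hij.ne', if_neg]
      have : (j : ℕ) < i := hij
      omega
  rw [h3, mul_one]
  rfl

/-- elementary symmetric functions of the differences annihilate `GG` -/
lemma esymm_GG {n : ℕ} {j : ℕ} (hj : 0 < j) (m : Fin n → ℤ) :
    ev (GG n) m (∑ J ∈ Finset.powersetCard j Finset.univ, ∏ q ∈ J, (X q - 1)) = 0 := by
  set c : Finset (Fin n) → ℚ := fun J => Matrix.det (Matrix.of fun q i : Fin n =>
    if q ∈ J then bs (m q) i else bv i (m q)) with hc
  have h1 : ∀ J : Finset (Fin n), ev (GG n) m (∏ q ∈ J, (X q - 1)) = c J := fun J =>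
    ev_det (n := n) (fun x i => bv i x) (fun x i => bs x i) (fun x i => bv_bs x i) J m
  rw [map_sum, Finset.sum_congr rfl fun J _ => h1 J]
  -- expansion of the determinant
  have h2 : ∀ t : ℚ, ∑ J : Finset (Fin n), t ^ J.card * c J = c ∅ := by
    intro t
    have h3 := det_shift m t
    have h4 : c ∅ = GG n m := by
      simp only [hc, GG, Finset.notMem_empty, if_false]
    set r0 : Fin n → Fin n → ℚ := fun q i => bv i (m q) with hr0
    rw [h4, ← h3]
    have h5 := (Matrix.detRowAlternating (n := Fin n) (R := ℚ)).toMultilinearMap.map_add_univ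
      (fun q => t • (bs (m q) : Fin n → ℚ)) r0
    have h6 : Matrix.det (Matrix.of fun q i : Fin n => bv i (m q) + t * bs (m q) i) =
        (Matrix.detRowAlternating (n := Fin n) (R := ℚ)).toMultilinearMap
        ((fun q => t • (bs (m q) : Fin n → ℚ)) + r0) := by
      change Matrix.det _ = Matrix.det _
      congr 1
      ext q i
      simp only [Matrix.of_apply, Pi.add_apply, Pi.smul_apply, smul_eq_mul]
      ring
    rw [h6, h5]
    refine Finset.sum_congr rfl fun J _ => ?_
    have h7 := (Matrix.detRowAlternating (n := Fin n) (R := ℚ)).toMultilinearMap.map_piecewise_smul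
      (fun _ => t) (J.piecewise (fun q => (bs (m q) : Fin n → ℚ)) r0) J
    rw [Finset.prod_const, smul_eq_mul] at h7
    have h8 : J.piecewise (fun i => t • (J.piecewise (fun q => (bs (m q) : Fin n → ℚ)) r0) i)
        (J.piecewise (fun q => (bs (m q) : Fin n → ℚ)) r0) =
        J.piecewise (fun q => t • (bs (m q) : Fin n → ℚ)) r0 := by
      ext q i
      by_cases hq : q ∈ J
      · simp [hq]
      · simp [hq]
    rw [h8] at h7
    rw [h7]
    congr 1
    change _ = Matrix.det _
    simp only [hc]
    congr 1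
    ext q i
    by_cases hq : q ∈ J
    · simp [hq]
    · simp [hq, hr0]
  -- compare coefficients
  have h9 : (∑ J : Finset (Fin n), Polynomial.C (c J) * Polynomial.X ^ J.card) =
      Polynomial.C (c ∅) := by
    apply Polynomial.funext
    intro t
    rw [Polynomial.eval_finsetSum, Polynomial.eval_C, ← h2 t]
    refine Finset.sum_congr rfl fun J _ => ?_
    simp
    ring
  have h10 := congrArg (fun p => Polynomial.coeff p j) h9
  simp only [Polynomial.finsetSum_coeff, Polynomial.coeff_C_mul, Polynomial.coeff_X_pow,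
    Polynomial.coeff_C, if_neg hj.ne'] at h10
  rw [← h10, Finset.powersetCard_eq_filter, Finset.sum_filter, Finset.powerset_univ]
  refine Finset.sum_congr rfl fun J _ => ?_
  by_cases h : J.card = j
  · rw [if_pos h, if_pos h.symm, mul_one]
  · rw [if_neg h, if_neg (fun h' => h h'.symm), mul_zero]

lemma ev_GG_esymm {n : ℕ} {j : ℕ} (hj : 0 < j) (k : Fin n → ℤ) (p : MvPolynomial (Fin n) ℚ) :
    ev (GG n) k (p * ∑ J ∈ Finset.powersetCard j Finset.univ, ∏ q ∈ J, (X q - 1)) = 0 := by
  rw [← ev_ev]
  have : (fun m => ev (GG n) m (∑ J ∈ Finset.powersetCard j Finset.univ, ∏ q ∈ J, (X q - 1))) =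
      fun m => 0 * GG n m := by
    funext m
    rw [esymm_GG hj m, zero_mul]
  rw [this, ev_smul, zero_mul]

/-- symmetric products act through their value at one -/
theorem ev_GG_prod {n : ℕ} (k : Fin n → ℤ) (p A B : MvPolynomial (Fin n) ℚ) :
    ev (GG n) k (p * ∏ q, (A + B * (X q - 1))) = ev (GG n) k (p * A ^ n) := by
  have h1 : (∏ q : Fin n, (A + B * (X q - 1))) = ∑ j ∈ Finset.range (n + 1),
      (A ^ (n - j) * B ^ j) * ∑ J ∈ Finset.powersetCard j Finset.univ, ∏ q ∈ J, (X q - 1) := by
    have h2 : (∏ q : Fin n, (A + B * (X q - 1))) = ∏ q : Fin n, (B * (X q - 1) + A) :=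
      Finset.prod_congr rfl fun q _ => add_comm _ _
    rw [h2, Finset.prod_add, Finset.sum_powerset, Finset.card_univ, Fintype.card_fin]
    refine Finset.sum_congr rfl fun j _ => ?_
    rw [Finset.mul_sum]
    refine Finset.sum_congr rfl fun J hJ => ?_
    rw [Finset.mem_powersetCard] at hJ
    rw [Finset.prod_mul_distrib, Finset.prod_const, Finset.prod_const, hJ.2,
      Finset.card_sdiff_of_subset hJ.1, hJ.2, Finset.card_univ, Fintype.card_fin]
    ring
  rw [h1, Finset.mul_sum, map_sum, Finset.sum_eq_single 0]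
  · simp
  · intro j _ hj
    rw [← mul_assoc]
    exact ev_GG_esymm (Nat.pos_of_ne_zero hj) k _
  · simp

end

end Pool.Agent.X177.MT
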