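import Mathlib

/-! # The operator formula for the monotone triangle polynomial: functionals -/

set_option autoImplicit false

namespace Pool.Agent.X177.MT

open Finset MvPolynomial

noncomputable section

variable {n : ℕ}

/-- the value at `k` of the difference operator `p` (in the shifts) applied to `g` -/
def ev (g : (Fin n → ℤ) → ℚ) (k : Fin n → ℤ) : MvPolynomial (Fin n) ℚ →ₗ[ℚ] ℚ :=
  (Finsupp.linearCombination ℚ fun e : Fin n →₀ ℕ => g (k + fun i => (e i : ℤ))) ∘ₗ
    (MvPolynomial.basisMonomials (Fin n) ℚ).repr.toLinearMap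

lemma ev_monomial (g : (Fin n → ℤ) → ℚ) (k : Fin n → ℤ) (e : Fin n →₀ ℕ) (c : ℚ) :
    ev g k (monomial e c) = c * g (k + fun i => (e i : ℤ)) := by
  have h : (monomial e c : MvPolynomial (Fin n) ℚ) = c • (MvPolynomial.basisMonomials (Fin n) ℚ) e := by
    rw [MvPolynomial.coe_basisMonomials, MvPolynomial.smul_monomial, smul_eq_mul, mul_one]
  rw [h, map_smul]
  simp only [ev, LinearMap.comp_apply, LinearEquiv.coe_coe, Module.Basis.repr_self,
    Finsupp.linearCombination_single, smul_eq_mul, one_mul]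

lemma ev_one (g : (Fin n → ℤ) → ℚ) (k : Fin n → ℤ) : ev g k 1 = g k := by
  have h := ev_monomial g k 0 1
  rw [show (monomial (0 : Fin n →₀ ℕ) (1:ℚ) : MvPolynomial (Fin n) ℚ) = 1 from rfl] at h
  rw [h, one_mul]
  congr 1
  funext i
  simp

/-- linear maps out of the polynomials which agree on monomials are equal -/
lemma lin_ext {f g : MvPolynomial (Fin n) ℚ →ₗ[ℚ] ℚ}
    (h : ∀ e : Fin n →₀ ℕ, f (monomial e 1) = g (monomial e 1)) (p : MvPolynomial (Fin n) ℚ) :
    f p = g p := by
  have : f = g := by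
    apply (MvPolynomial.basisMonomials (Fin n) ℚ).ext
    intro e
    rw [MvPolynomial.coe_basisMonomials]
    exact h e
  rw [this]

/-- unit vector -/
def un (i : Fin n) : Fin n → ℤ := Pi.single i 1

lemma ev_X_mul (g : (Fin n → ℤ) → ℚ) (k : Fin n → ℤ) (i : Fin n) (p : MvPolynomial (Fin n) ℚ) :
    ev g k (X i * p) = ev g (k + un i) p := by
  refine lin_ext (f := (ev g k).comp (LinearMap.mulLeft ℚ (X i))) (g := ev g (k + un i)) ?_ p
  intro e
  rw [LinearMap.comp_apply, LinearMap.mulLeft_apply, MvPolynomial.X, monomial_mul, ev_monomial,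
    ev_monomial]
  simp only [one_mul]
  congr 1
  funext j
  simp only [Pi.add_apply, Finsupp.coe_add, Nat.cast_add, un]
  by_cases hij : j = i
  · subst hij
    simp
    ring
  · rw [Pi.single_eq_of_ne hij, Finsupp.single_eq_of_ne hij]
    simp

/-- composition -/
lemma ev_ev (h : (Fin n → ℤ) → ℚ) (k : Fin n → ℤ) (p s : MvPolynomial (Fin n) ℚ) :
    ev (fun m => ev h m p) k s = ev h k (s * p) := by
  refine lin_ext (f := ev (fun m => ev h m p) k)
    (g := (ev h k).comp (LinearMap.mulRight ℚ p)) ?_ s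
  intro e
  rw [ev_monomial, one_mul, LinearMap.comp_apply, LinearMap.mulRight_apply]
  refine lin_ext (f := ev h (k + fun i => (e i : ℤ)))
    (g := (ev h k).comp (LinearMap.mulLeft ℚ (monomial e 1))) ?_ p
  intro e'
  rw [ev_monomial, LinearMap.comp_apply, LinearMap.mulLeft_apply, monomial_mul, ev_monomial]
  simp only [one_mul]
  congr 1
  funext j
  simp only [Pi.add_apply, Finsupp.coe_add, Nat.cast_add]
  ring

/-- renaming the variables -/
lemma ev_rename (g : (Fin n → ℤ) → ℚ) (k : Fin n → ℤ) (σ : Equiv.Perm (Fin n))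
    (p : MvPolynomial (Fin n) ℚ) :
    ev g k (rename σ p) = ev (fun m => g (m ∘ σ.symm)) (k ∘ σ) p := by
  refine lin_ext (f := (ev g k).comp (rename σ).toLinearMap)
    (g := ev (fun m => g (m ∘ σ.symm)) (k ∘ σ)) ?_ p
  intro e
  rw [LinearMap.comp_apply, AlgHom.toLinearMap_apply, rename_monomial, ev_monomial, ev_monomial]
  congr 2
  funext j
  simp only [Pi.add_apply, Function.comp_apply, Equiv.apply_symm_apply]
  congr 1
  rw [Finsupp.mapDomain_equiv_apply]

lemma ev_smul (g : (Fin n → ℤ) → ℚ) (c : ℚ) (k : Fin n → ℤ) (p : MvPolynomial (Fin n) ℚ) :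
    ev (fun m => c * g m) k p = c * ev g k p := by
  refine lin_ext (f := ev (fun m => c * g m) k) (g := c • ev g k) ?_ p
  intro e
  rw [ev_monomial, LinearMap.smul_apply, ev_monomial, smul_eq_mul]
  ring

lemma ev_sum {ι : Type*} (s : Finset ι) (g : ι → (Fin n → ℤ) → ℚ) (k : Fin n → ℤ)
    (p : MvPolynomial (Fin n) ℚ) :
    ev (fun m => ∑ j ∈ s, g j m) k p = ∑ j ∈ s, ev (g j) k p := by
  have h := lin_ext (f := ev (fun m => ∑ j ∈ s, g j m) k) (g := ∑ j ∈ s, ev (g j) k) (by
    intro e
    rw [ev_monomial, LinearMap.sum_apply, one_mul]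
    refine Finset.sum_congr rfl fun j _ => ?_
    rw [ev_monomial, one_mul]) p
  rw [h, LinearMap.sum_apply]

/-- a function is antisymmetric -/
def Anti (g : (Fin n → ℤ) → ℚ) : Prop :=
  ∀ (σ : Equiv.Perm (Fin n)) (m : Fin n → ℤ), g (m ∘ σ) = (Equiv.Perm.sign σ : ℤ) * g m

lemma ev_rename_anti {g : (Fin n → ℤ) → ℚ} (hg : Anti g) (k : Fin n → ℤ) (σ : Equiv.Perm (Fin n))
    (p : MvPolynomial (Fin n) ℚ) :
    ev g k (rename σ p) = (Equiv.Perm.sign σ : ℤ) * ev g (k ∘ σ) p := by
  rw [ev_rename]
  have : (fun m => g (m ∘ σ.symm)) = fun m => ((Equiv.Perm.sign σ : ℤ) : ℚ) * g m := by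
    funext m
    have := hg σ.symm m
    rw [this]
    congr 3
    rw [← Equiv.Perm.sign_inv]
    rfl
  rw [this, ev_smul]

/-- the factor `1 - E_p + E_p E_q` -/
def Sf (p q : Fin n) : MvPolynomial (Fin n) ℚ := 1 - X p + X p * X q

/-- `∏_{p < q} (1 - E_p + E_p E_q)` -/
def SS (n : ℕ) : MvPolynomial (Fin n) ℚ := ∏ p : Fin n, ∏ q : Fin n, if p < q then Sf p q else 1

/-- the transform -/
def W (g : (Fin n → ℤ) → ℚ) (k : Fin n → ℤ) : ℚ := ev g k (SS n)

lemma rename_Sf (σ : Equiv.Perm (Fin n)) (p q : Fin n) :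
    rename σ (Sf p q) = Sf (σ p) (σ q) := by
  simp [Sf]

lemma SS_mul_eq (i j : Fin n) (hij : (j : ℕ) = i + 1) :
    SS n * Sf j i = ∏ p : Fin n, ∏ q : Fin n, if p < q ∨ (p = j ∧ q = i) then Sf p q else 1 := by
  have h1 : ∀ p q : Fin n, (if p < q ∨ (p = j ∧ q = i) then Sf p q else (1 : MvPolynomial (Fin n) ℚ)) =
      (if p < q then Sf p q else 1) * (if p = j ∧ q = i then Sf p q else 1) := by
    intro p q
    by_cases h : p < q
    · by_cases h' : p = j ∧ q = i
      · exfalso
        obtain ⟨rfl, rfl⟩ := h'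
        have : (p : ℕ) < q := h
        omega
      · simp [h, h']
    · by_cases h' : p = j ∧ q = i
      · rw [if_pos (Or.inr h'), if_neg h, if_pos h', one_mul]
      · rw [if_neg (not_or.2 ⟨h, h'⟩), if_neg h, if_neg h', one_mul]
  simp only [h1, Finset.prod_mul_distrib]
  congr 1
  rw [Finset.prod_eq_single j, Finset.prod_eq_single i]
  · simp
  · intro b _ hb
    simp [hb]
  · simp
  · intro b _ hb
    apply Finset.prod_eq_one
    intro q _
    simp [hb]
  · simp

lemma rename_SS_mul (i j : Fin n) (hij : (j : ℕ) = i + 1) :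
    rename (Equiv.swap i j) (SS n * Sf j i) = SS n * Sf j i := by
  rw [SS_mul_eq i j hij]
  simp only [map_prod]
  rw [← Equiv.prod_comp (Equiv.swap i j) (fun p => ∏ q : Fin n,
    if p < q ∨ (p = j ∧ q = i) then Sf p q else (1 : MvPolynomial (Fin n) ℚ))]
  refine Finset.prod_congr rfl fun p _ => ?_
  rw [← Equiv.prod_comp (Equiv.swap i j) (fun q =>
    if (Equiv.swap i j) p < q ∨ ((Equiv.swap i j) p = j ∧ q = i) then Sf ((Equiv.swap i j) p) q
    else (1 : MvPolynomial (Fin n) ℚ))]
  refine Finset.prod_congr rfl fun q _ => ?_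
  have hcond : (p < q ∨ (p = j ∧ q = i)) ↔ ((Equiv.swap i j) p < (Equiv.swap i j) q ∨
      ((Equiv.swap i j) p = j ∧ (Equiv.swap i j) q = i)) := by
    have hne : i ≠ j := by
      intro h
      rw [h] at hij
      omega
    rcases eq_or_ne p i with hp | hp
    · rcases eq_or_ne q i with hq | hq
      · subst hp; subst hq; simp [hne, hne.symm]
      · rcases eq_or_ne q j with hq' | hq'
        · subst hp; subst hq'
          rw [Equiv.swap_apply_left, Equiv.swap_apply_right]
          exact ⟨fun _ => Or.inr ⟨rfl, rfl⟩, fun _ => Or.inl (by rw [Fin.lt_def]; omega)⟩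
        · subst hp
          rw [Equiv.swap_apply_left, Equiv.swap_apply_of_ne_of_ne hq hq']
          have e1 : (q : ℕ) ≠ p := fun h => hq (Fin.ext h)
          have e2 : (q : ℕ) ≠ j := fun h => hq' (Fin.ext h)
          simp only [Fin.lt_def, hne, hq, false_and, and_false, or_false]
          omega
    · rcases eq_or_ne p j with hp' | hp'
      · rcases eq_or_ne q i with hq | hq
        · subst hp'; subst hq
          rw [Equiv.swap_apply_left, Equiv.swap_apply_right]
          exact ⟨fun _ => Or.inl (by rw [Fin.lt_def]; omega), fun _ => Or.inr ⟨rfl, rfl⟩⟩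
        · rcases eq_or_ne q j with hq' | hq'
          · subst hp'; subst hq'; simp [hne, hne.symm]
          · subst hp'
            rw [Equiv.swap_apply_right, Equiv.swap_apply_of_ne_of_ne hq hq']
            have e1 : (q : ℕ) ≠ i := fun h => hq (Fin.ext h)
            have e2 : (q : ℕ) ≠ p := fun h => hq' (Fin.ext h)
            simp only [Fin.lt_def, hne, hq, false_and, and_false, or_false]
            omega
      · rw [Equiv.swap_apply_of_ne_of_ne hp hp']
        have e1 : (p : ℕ) ≠ i := fun h => hp (Fin.ext h)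
        have e2 : (p : ℕ) ≠ j := fun h => hp' (Fin.ext h)
        rcases eq_or_ne q i with hq | hq
        · subst hq
          rw [Equiv.swap_apply_left]
          simp only [Fin.lt_def, hp', false_and, or_false]
          omega
        · rcases eq_or_ne q j with hq' | hq'
          · subst hq'
            rw [Equiv.swap_apply_right]
            simp only [Fin.lt_def, hp', false_and, or_false]
            omega
          · rw [Equiv.swap_apply_of_ne_of_ne hq hq']
  by_cases h : p < q ∨ (p = j ∧ q = i)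
  · rw [if_pos h, if_pos (hcond.1 h), rename_Sf]
  · rw [if_neg h, if_neg (fun h' => h (hcond.2 h')), map_one]

/-- **R**: the shift-antisymmetry in two adjacent arguments -/
theorem W_R {g : (Fin n → ℤ) → ℚ} (hg : Anti g) (i j : Fin n) (hij : (j : ℕ) = i + 1)
    (k : Fin n → ℤ) :
    W g k - W g (k + un j) + W g (k + un i + un j) =
      - (W g (k ∘ Equiv.swap i j) - W g (k ∘ Equiv.swap i j + un j) +
        W g (k ∘ Equiv.swap i j + un i + un j)) := by
  have key : ∀ k : Fin n → ℤ, W g k - W g (k + un j) + W g (k + un i + un j) =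
      ev g k (SS n * Sf j i) := by
    intro k
    have : SS n * Sf j i = SS n - X j * SS n + X i * (X j * SS n) := by
      simp only [Sf]
      ring
    rw [this, map_add, map_sub, ev_X_mul, ev_X_mul, ev_X_mul]
    rfl
  rw [key, key]
  have h := ev_rename_anti hg k (Equiv.swap i j) (SS n * Sf j i)
  rw [rename_SS_mul i j hij] at h
  have hne : i ≠ j := by
    intro h
    rw [h] at hij
    omega
  rw [Equiv.Perm.sign_swap hne] at h
  rw [h]
  simp

/-- the case of equal arguments -/
theorem W_R2 {g : (Fin n → ℤ) → ℚ} (hg : Anti g) (i j : Fin n) (hij : (j : ℕ) = i + 1)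
    (k : Fin n → ℤ) (hk : k i = k j) :
    W g (k + un j) = W g k + W g (k + un i + un j) := by
  have h := W_R hg i j hij k
  have hk' : k ∘ Equiv.swap i j = k := by
    funext l
    simp only [Function.comp_apply]
    rcases eq_or_ne l i with hl | hl
    · subst hl
      rw [Equiv.swap_apply_left, hk]
    · rcases eq_or_ne l j with hl' | hl'
      · subst hl'
        rw [Equiv.swap_apply_right, hk]
      · rw [Equiv.swap_apply_of_ne_of_ne hl hl']
  rw [hk'] at h
  linarith

end

end Pool.Agent.X177.MT
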