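import Pool.Agent.X177.MT.Count

/-! # Monotone triangles as arrays; reflection -/

set_option autoImplicit false

namespace Pool.Agent.X177.MT

open Finset

noncomputable section

/-- `a` is a monotone triangle with `n` rows and bottom row `k` (rows `0, ..., n - 1`, the row `r` has
the entries `0, ..., r`, all other values are zero) -/
def IsMT (n : ℕ) (k : Fin n → ℤ) (a : ℕ → ℕ → ℤ) : Prop :=
  (∀ r j, r < n → j < r → a r j < a r (j + 1)) ∧
  (∀ r j, r + 1 < n → j ≤ r → a (r + 1) j ≤ a r j ∧ a r j ≤ a (r + 1) (j + 1)) ∧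
  (∀ j : Fin n, a (n - 1) j = k j) ∧
  (∀ r j, (n ≤ r ∨ r < j) → a r j = 0)

lemma mono_of_step {f : ℕ → ℤ} {r : ℕ} (h : ∀ j, j < r → f j < f (j + 1)) {i j : ℕ} (hij : i < j)
    (hj : j ≤ r) : f i < f j := by
  induction j with
  | zero => omega
  | succ j ih =>
    rcases Nat.lt_succ_iff_lt_or_eq.1 hij with h1 | h1
    · exact (ih h1 (by omega)).trans (h j (by omega))
    · rw [h1]
      exact h j (by omega)

/-- removing the bottom row -/
def stepEquiv (n : ℕ) (k : Fin (n + 1) → ℤ) (hk : StrictMono k) :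
    {a : ℕ → ℕ → ℤ // IsMT (n + 1) k a} ≃
      Σ l : {l : Fin n → ℤ // l ∈ IL k}, {a : ℕ → ℕ → ℤ // IsMT n l.1 a} where
  toFun a := ⟨⟨fun j => a.1 (n - 1) j, by
    obtain ⟨a, h1, h2, h3, h4⟩ := a
    rw [mem_IL]
    refine ⟨fun i => ?_, fun i j hij => ?_⟩
    · have hi := i.2
      have h5 := h2 (n - 1) i (by omega) (by omega)
      rw [show n - 1 + 1 = n by omega] at h5
      have h6 := h3 i.castSucc
      have h7 := h3 i.succ
      simp only [Nat.add_sub_cancel, Fin.val_castSucc, Fin.val_succ] at h6 h7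
      rw [h6, h7] at h5
      exact h5
    · exact mono_of_step (f := fun j => a (n - 1) j) (r := n - 1)
        (fun l hl => h1 (n - 1) l (by omega) hl) hij (by omega)⟩,
    ⟨fun r j => if r < n then a.1 r j else 0, by
      obtain ⟨a, h1, h2, h3, h4⟩ := a
      refine ⟨fun r j hr hj => ?_, fun r j hr hj => ?_, fun j => ?_, fun r j hrj => ?_⟩
      · simp only [if_pos hr]
        exact h1 r j (by omega) hj
      · simp only [if_pos hr, if_pos (show r < n by omega)]
        exact h2 r j (by omega) hj
      · have := j.2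
        simp only [if_pos (show n - 1 < n by omega)]
      · by_cases hr : r < n
        · simp only [if_pos hr]
          exact h4 r j (by omega)
        · simp only [if_neg hr]⟩⟩
  invFun q := ⟨fun r j => if r = n then (if h : j < n + 1 then k ⟨j, h⟩ else 0) else q.2.1 r j, by
    obtain ⟨⟨l, hl⟩, ⟨a, h1, h2, h3, h4⟩⟩ := q
    rw [mem_IL] at hl
    simp only at h3
    refine ⟨fun r j hr hj => ?_, fun r j hr hj => ?_, fun j => ?_, fun r j hrj => ?_⟩
    · by_cases hrn : r = n
      · simp only [if_pos hrn]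
        rw [dif_pos (by omega), dif_pos (by omega)]
        exact hk (by rw [Fin.lt_def]; simp)
      · simp only [if_neg hrn]
        exact h1 r j (by omega) hj
    · by_cases hrn : r + 1 = n
      · simp only [if_pos hrn, if_neg (show r ≠ n by omega)]
        rw [dif_pos (by omega), dif_pos (by omega)]
        have hjn : j < n := by omega
        have h5 := hl.1 ⟨j, hjn⟩
        have h6 := h3 ⟨j, hjn⟩
        simp only at h6
        rw [show n - 1 = r by omega] at h6
        rw [h6]
        exact h5
      · simp only [if_neg hrn, if_neg (show r ≠ n by omega)]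
        exact h2 r j (by omega) hj
    · simp only [Nat.add_sub_cancel, if_true]
      rw [dif_pos j.2]
    · by_cases hrn : r = n
      · simp only [if_pos hrn]
        rw [dif_neg (by omega)]
      · simp only [if_neg hrn]
        exact h4 r j (by omega)⟩
  left_inv a := by
    obtain ⟨a, h1, h2, h3, h4⟩ := a
    apply Subtype.ext
    funext r j
    simp only
    by_cases hrn : r = n
    · subst hrn
      rw [if_pos rfl]
      by_cases hj : j < r + 1
      · rw [dif_pos hj]
        have := h3 ⟨j, hj⟩
        simp only [Nat.add_sub_cancel] at this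
        exact this.symm
      · rw [dif_neg hj]
        exact (h4 r j (by omega)).symm
    · rw [if_neg hrn]
      by_cases hr : r < n
      · rw [if_pos hr]
      · rw [if_neg hr]
        exact (h4 r j (by omega)).symm
  right_inv q := by
    obtain ⟨⟨l, hl⟩, ⟨a, h1, h2, h3, h4⟩⟩ := q
    simp only at h3
    have e1 : (fun j : Fin n => if n - 1 = n then (if h : (j : ℕ) < n + 1 then k ⟨j, h⟩ else 0)
        else a (n - 1) j) = l := by
      funext j
      have := j.2
      rw [if_neg (by omega)]
      exact h3 j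
    have e2 : (fun r j => if r < n then (if r = n then (if h : j < n + 1 then k ⟨j, h⟩ else 0)
        else a r j) else 0) = a := by
      funext r j
      by_cases hr : r < n
      · rw [if_pos hr, if_neg (by omega)]
      · rw [if_neg hr]
        exact (h4 r j (by omega)).symm
    subst e1
    exact Sigma.ext rfl (heq_of_eq (Subtype.ext e2))

theorem card_IsMT (n : ℕ) : ∀ k : Fin n → ℤ, StrictMono k →
    Finite {a : ℕ → ℕ → ℤ // IsMT n k a} ∧
      (Nat.card {a : ℕ → ℕ → ℤ // IsMT n k a} : ℚ) = W (GG n) k := by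
  induction n with
  | zero =>
    intro k _
    have hu : ∀ a : {a : ℕ → ℕ → ℤ // IsMT 0 k a}, a = ⟨fun _ _ => 0, by
        refine ⟨fun r j hr => by omega, fun r j hr => by omega, fun j => j.elim0, fun _ _ _ => rfl⟩⟩ := by
      intro a
      apply Subtype.ext
      funext r j
      exact a.2.2.2.2 r j (Or.inl (Nat.zero_le r))
    have : Unique {a : ℕ → ℕ → ℤ // IsMT 0 k a} := ⟨⟨_⟩, hu⟩
    refine ⟨inferInstance, ?_⟩
    rw [Nat.card_unique, W_zero]
    simp
  | succ n ih =>
    intro k hk
    have hfin : ∀ l : {l : Fin n → ℤ // l ∈ IL k}, Finite {a : ℕ → ℕ → ℤ // IsMT n l.1 a} :=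
      fun l => (ih l.1 (mem_IL.1 l.2).2).1
    have e := stepEquiv n k hk
    refine ⟨Finite.of_equiv _ e.symm, ?_⟩
    rw [Nat.card_congr e, Nat.card_sigma, W_rec n k hk]
    push_cast
    rw [← Finset.sum_coe_sort (IL k)]
    exact Finset.sum_congr rfl fun l _ => (ih l.1 (mem_IL.1 l.2).2).2

/-- reflection of a tuple -/
def rf {n : ℕ} (k : Fin n → ℤ) (i : Fin n) : ℤ := - k i.rev

lemma rf_rf {n : ℕ} (k : Fin n → ℤ) : rf (rf k) = k := by
  funext i
  simp [rf]

lemma rf_mono {n : ℕ} {k : Fin n → ℤ} (hk : StrictMono k) : StrictMono (rf k) := by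
  intro i j hij
  have := hk (Fin.rev_lt_rev.2 hij)
  simp only [rf]
  omega

lemma rf_mem_IL {n : ℕ} {k : Fin (n + 1) → ℤ} {l : Fin n → ℤ} (h : l ∈ IL k) :
    rf l ∈ IL (rf k) := by
  rw [mem_IL] at h ⊢
  refine ⟨fun i => ?_, rf_mono h.2⟩
  have h1 := h.1 i.rev
  simp only [rf, Fin.rev_castSucc, Fin.rev_succ]
  omega

theorem reflection_mono (n : ℕ) : ∀ k : Fin n → ℤ, StrictMono k →
    W (GG n) (rf k) = W (GG n) k := by
  induction n with
  | zero =>
    intro k _
    rw [W_zero, W_zero]
  | succ n ih =>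
    intro k hk
    rw [W_rec n _ (rf_mono hk), W_rec n k hk]
    symm
    refine Finset.sum_nbij' rf rf (fun l hl => rf_mem_IL hl) (fun l hl => ?_)
      (fun l _ => rf_rf l) (fun l _ => rf_rf l) (fun l hl => (ih l (mem_IL.1 hl).2).symm)
    have := rf_mem_IL hl
    rw [rf_rf] at this
    exact this

/-- **reflection** -/
theorem reflection (n : ℕ) (k : Fin n → ℤ) : W (GG n) (rf k) = W (GG n) k := by
  refine IsPoly.ext_strictMono (f := fun k => W (GG n) (rf k)) ?_ (isPoly_W n)
    (reflection_mono n) k
  have h := (isPoly_W n).comp_affine (m := n) (fun i j => if j = i.rev then -1 else 0) (fun _ => 0)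
  have e : (fun k : Fin n → ℤ => W (GG n) fun i => (∑ j, (if j = i.rev then (-1:ℤ) else 0) * k j) +
      0) = fun k => W (GG n) (rf k) := by
    funext k
    congr 1
    funext i
    simp [rf]
  rw [e] at h
  exact h

end

end Pool.Agent.X177.MT
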