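import Pool.Agent.X144.MT.Final
import Pool.Agent.X177.MT.Tri

/-! # The operator formula in list form -/

set_option autoImplicit false

namespace Pool.Agent.X177.MT

open Pool.Agent.X144.MT (al Above RF T_eq_sum mem_RF Wk_of_pairwise PL_al nr al_nr al_shift iv)

noncomputable section

lemma above_ofFn {n : ℕ} (k : Fin (n + 1) → ℤ) (l : Fin n → ℤ) :
    Above (List.ofFn l) (List.ofFn k) ↔ ∀ i, k i.castSucc ≤ l i ∧ l i ≤ k i.succ := by
  unfold Above
  rw [List.length_ofFn, List.length_ofFn]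
  constructor
  · rintro ⟨_, h⟩ i
    have := h i i.2
    rw [List.getD_eq_getElem _ _ (by simp), List.getD_eq_getElem _ _ (by simp),
      List.getD_eq_getElem _ _ (by simp), List.getElem_ofFn, List.getElem_ofFn,
      List.getElem_ofFn] at this
    exact this
  · intro h
    refine ⟨rfl, fun j hj => ?_⟩
    rw [List.getD_eq_getElem _ _ (by simp; omega), List.getD_eq_getElem _ _ (by simpa using hj),
      List.getD_eq_getElem _ _ (by simpa using hj), List.getElem_ofFn, List.getElem_ofFn,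
      List.getElem_ofFn]
    exact h ⟨j, hj⟩

lemma pairwise_ofFn_iff {n : ℕ} (l : Fin n → ℤ) :
    (List.ofFn l).Pairwise (· < ·) ↔ StrictMono l := by
  rw [List.pairwise_ofFn]
  exact ⟨fun h i j hij => h hij, fun h i j hij => h hij⟩

lemma al_eq_W_strict : ∀ (n : ℕ) (k : Fin n → ℤ), StrictMono k →
    (al n (List.ofFn k) : ℚ) = W (GG n) k := by
  intro n
  induction n with
  | zero =>
    intro k _
    rw [W_zero]
    simp [al]
  | succ n ih =>
    intro k hk
    have hP : (List.ofFn k).Pairwise (· < ·) := (pairwise_ofFn_iff k).2 hk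
    rw [W_rec n k hk]
    rw [List.ofFn_succ] at hP ⊢
    have h1 : al (n + 1) (k 0 :: List.ofFn fun i : Fin n => k i.succ) =
        ∑ l ∈ RF (k 0) (List.ofFn fun i : Fin n => k i.succ), al n l :=
      T_eq_sum _ (al n) (k 0) (Wk_of_pairwise hP)
    rw [h1]
    push_cast
    symm
    refine Finset.sum_bij (fun l _ => List.ofFn l) ?_ ?_ ?_ ?_
    · intro l hl
      rw [mem_IL] at hl
      rw [mem_RF _ _ (Wk_of_pairwise hP), ← List.ofFn_succ]
      exact ⟨(above_ofFn k l).2 hl.1, (pairwise_ofFn_iff l).2 hl.2⟩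
    · intro l _ l' _ h
      exact List.ofFn_injective h
    · intro s hs
      rw [mem_RF _ _ (Wk_of_pairwise hP), ← List.ofFn_succ] at hs
      have hlen : s.length = n := by
        have := hs.1.1
        simpa using this
      subst hlen
      refine ⟨s.get, ?_, List.ofFn_get s⟩
      have e : List.ofFn s.get = s := List.ofFn_get s
      rw [mem_IL]
      refine ⟨(above_ofFn k s.get).1 ?_, (pairwise_ofFn_iff s.get).1 ?_⟩
      · rw [e]; exact hs.1
      · rw [e]; exact hs.2
    · intro l hl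
      rw [mem_IL] at hl
      exact (ih l hl.2).symm

lemma isPoly_al (n : ℕ) : IsPoly fun k : Fin n → ℤ => (al n (List.ofFn k) : ℚ) := by
  obtain ⟨Q, hQ⟩ := (PL_al n).exists_poly
  exact ⟨Q, hQ⟩

/-- the list form of the monotone triangle polynomial is given by the operator formula -/
theorem al_eq_W (n : ℕ) (k : Fin n → ℤ) : (al n (List.ofFn k) : ℚ) = W (GG n) k :=
  IsPoly.ext_strictMono (isPoly_al n) (isPoly_W n) (al_eq_W_strict n) k

lemma ofFn_snoc' {n : ℕ} (k : Fin n → ℤ) (y : ℤ) :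
    List.ofFn (Fin.snoc k y : Fin (n + 1) → ℤ) = List.ofFn k ++ [y] := by
  rw [List.ofFn_succ', List.concat_eq_append]
  simp

/-- **rotation** in list form -/
theorem al_rot (n : ℕ) (x : ℤ) (l : List ℤ) (hl : l.length = n) :
    al (n + 1) (x :: l) = (-1) ^ n * al (n + 1) (l ++ [x - (n + 1)]) := by
  subst hl
  have h := rotation l.length (Fin.cons x l.get)
  have e1 : List.ofFn (Fin.cons x l.get : Fin (l.length + 1) → ℤ) = x :: l := by
    rw [List.ofFn_succ]
    simp
  have e2 : (fun i => if i = Fin.last l.length then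
      (Fin.cons x l.get : Fin (l.length + 1) → ℤ) 0 - ((l.length : ℤ) + 1)
        else (Fin.cons x l.get : Fin (l.length + 1) → ℤ) (finRotate (l.length + 1) i)) =
      (Fin.snoc l.get (x - (l.length + 1)) : Fin (l.length + 1) → ℤ) := by
    funext i
    refine Fin.lastCases ?_ (fun i => ?_) i
    · rw [if_pos rfl]
      simp
    · rw [if_neg (Fin.castSucc_lt_last i).ne, finRotate_apply, Fin.coeSucc_eq_succ]
      simp
  rw [e2, ← al_eq_W, ← al_eq_W, e1, ofFn_snoc', List.ofFn_get] at h
  exact_mod_cast h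

/-- evaluation of `al (n) (1, ..., n-1, ± y)` -/
theorem al_parity (n : ℕ) (hn : 1 ≤ n) (y : ℤ) :
    al n (iv 1 (n - 1) ++ [-y]) = (-1) ^ (n - 1) * al n (iv 1 (n - 1) ++ [y]) := by
  obtain ⟨m, rfl⟩ : ∃ m, n = m + 1 := ⟨n - 1, by omega⟩
  have e0 : m + 1 - 1 = m := by omega
  rw [e0]
  have h1 : al (m + 1) (iv 1 m ++ [-y]) = al (m + 1) (nr (iv 1 m ++ [-y])) :=
    (al_nr _ _ (by simp [Pool.Agent.X144.MT.iv_length])).symm
  have h2 : nr (iv 1 m ++ [-y]) = y :: iv (-(m : ℤ)) m := by
    rw [Pool.Agent.X144.MT.nr_append, Pool.Agent.X144.MT.nr_iv]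
    simp [nr]
  have h3 : al (m + 1) (y :: iv (-(m : ℤ)) m) =
      al (m + 1) ((y :: iv (-(m : ℤ)) m).map (· + ((m : ℤ) + 1))) := (al_shift _ _ _).symm
  have h4 : (y :: iv (-(m : ℤ)) m).map (· + ((m : ℤ) + 1)) = (y + (m + 1)) :: iv 1 m := by
    rw [List.map_cons, Pool.Agent.X144.MT.iv_map_add, show -(m:ℤ) + ((m:ℤ) + 1) = 1 by ring]
  rw [h1, h2, h3, h4, al_rot m _ _ (Pool.Agent.X144.MT.iv_length m 1),
    show y + ((m:ℤ) + 1) - ((m:ℤ) + 1) = y by ring]

/-! ### the symmetric function relation -/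

/-- the mixing operator -/
def ML (T : ℤ) : (List ℤ → ℤ) → List ℤ → ℤ
  | F, [] => F []
  | F, x :: l => (T + 1) * ML T (fun w => F (x :: w)) l - ML T (fun w => F ((x - 1) :: w)) l

lemma ML_ofFn (T : ℤ) : ∀ (n : ℕ) (F : List ℤ → ℤ) (k : Fin n → ℤ),
    ML T F (List.ofFn k) = ∑ b : Fin n → Bool, (∏ i, if b i then (-1) else T + 1) *
      F (List.ofFn fun i => k i - if b i then 1 else 0) := by
  intro n
  induction n with
  | zero =>
    intro F k
    simp [ML]
  | succ n ih =>
    intro F k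
    rw [List.ofFn_succ, ML, ih, ih, Pool.Agent.X144.MT.sum_cons_bool, Finset.mul_sum]
    rw [sub_eq_add_neg, ← Finset.sum_neg_distrib]
    simp only [Fin.prod_univ_succ, List.ofFn_succ, Fin.cons_zero, Fin.cons_succ]
    rw [add_comm]
    congr 1
    · refine Finset.sum_congr rfl fun b _ => ?_
      simp only [if_true]
      ring
    · refine Finset.sum_congr rfl fun b _ => ?_
      simp only [Bool.false_eq_true, if_false, sub_zero]
      ring

lemma ev_monomial_mul' {n : ℕ} (g : (Fin n → ℤ) → ℚ) (k : Fin n → ℤ) (e : Fin n →₀ ℕ) (c : ℚ)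
    (p : MvPolynomial (Fin n) ℚ) :
    ev g k (MvPolynomial.monomial e c * p) = c * ev g (k + fun i => (e i : ℤ)) p := by
  have : MvPolynomial.monomial e c * p = c • (MvPolynomial.monomial e 1 * p) := by
    rw [MvPolynomial.smul_eq_C_mul, ← mul_assoc, MvPolynomial.C_mul_monomial, mul_one]
  rw [this, map_smul, smul_eq_mul, ev_monomial_mul]

lemma W_mix (n : ℕ) (T : ℚ) (k : Fin n → ℤ) :
    ∑ b : Fin n → Bool, (∏ i, if b i then (-1) else T + 1) *
      W (GG n) (fun i => k i - if b i then 1 else 0) = T ^ n * W (GG n) k := by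
  have h := ev_GG_prod (fun i => k i + (-1)) (SS n) (MvPolynomial.C T) (MvPolynomial.C (T + 1))
  have h2 : (∏ q : Fin n, (MvPolynomial.C T + MvPolynomial.C (T + 1) * (MvPolynomial.X q - 1)) :
      MvPolynomial (Fin n) ℚ) = ∑ b : Fin n → Bool,
        MvPolynomial.monomial (Finsupp.equivFunOnFinite.symm fun q => if b q then 0 else 1)
          (∏ i, if b i then (-1) else T + 1) := by
    have h3 : ∀ q : Fin n, (MvPolynomial.C T + MvPolynomial.C (T + 1) * (MvPolynomial.X q - 1) :
        MvPolynomial (Fin n) ℚ) = ∑ b : Bool, (if b then MvPolynomial.C (-1) else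
          MvPolynomial.C (T + 1) * MvPolynomial.X q) := by
      intro q
      rw [Fintype.sum_bool]
      simp only [if_true, Bool.false_eq_true, if_false, map_add, map_one, map_neg]
      ring
    rw [Finset.prod_congr rfl fun q _ => h3 q, Fintype.prod_sum]
    refine Finset.sum_congr rfl fun b _ => ?_
    rw [MvPolynomial.monomial_eq, Finsupp.prod_fintype _ _ (fun i => pow_zero _), map_prod,
      ← Finset.prod_mul_distrib]
    refine Finset.prod_congr rfl fun q _ => ?_
    cases h : b q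
    · simp [h]
    · simp [h]
  rw [h2, Finset.mul_sum, map_sum, ← map_pow, mul_comm (SS n) (MvPolynomial.C _),
    ← MvPolynomial.smul_eq_C_mul, map_smul, smul_eq_mul] at h
  have h4 : ev (GG n) (fun i => k i + (-1)) (SS n) = W (GG n) k := translation n k (-1)
  rw [h4] at h
  rw [← h]
  refine Finset.sum_congr rfl fun b _ => ?_
  rw [mul_comm (SS n), ev_monomial_mul']
  rw [W]
  have h5 : (fun i => k i - if b i then 1 else 0) = ((fun i => k i + (-1)) + fun i =>
      (((Finsupp.equivFunOnFinite.symm fun q => if b q then 0 else 1 : Fin n →₀ ℕ) i : ℕ) : ℤ)) := by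
    funext i
    simp only [Pi.add_apply, Finsupp.equivFunOnFinite_symm_apply_apply]
    cases b i
    · simp
    · simp
      ring
  rw [h5]

/-- **the symmetric function relation** -/
theorem ML_al (T : ℤ) (n : ℕ) (l : List ℤ) (hl : l.length = n) :
    ML T (al n) l = T ^ n * al n l := by
  subst hl
  have h := W_mix l.length (T : ℚ) l.get
  rw [← al_eq_W, List.ofFn_get] at h
  have h2 := ML_ofFn T l.length (al l.length) l.get
  rw [List.ofFn_get] at h2
  have h3 : (ML T (al l.length) l : ℚ) = (T : ℚ) ^ l.length * (al l.length l : ℚ) := by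
    rw [← h, h2]
    push_cast
    refine Finset.sum_congr rfl fun b _ => ?_
    rw [← al_eq_W]
  exact_mod_cast h3

/-! ### the degree in the last variable -/

lemma natDegree_bp (i : ℕ) : (bp i).natDegree ≤ i := by
  induction i with
  | zero => simp [bp]
  | succ i ih =>
    rw [bp]
    refine Polynomial.natDegree_mul_le.trans ?_
    have h1 : (Polynomial.X - Polynomial.C (i : ℚ)).natDegree = 1 := Polynomial.natDegree_X_sub_C _
    rw [h1]
    have h2 := Polynomial.natDegree_C_mul_le (1 / ((i : ℚ) + 1)) (bp i)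
    omega

/-- polynomial functions of one variable of degree at most `N` -/
def Deg (N : ℕ) : Submodule ℚ (ℤ → ℚ) where
  carrier := {f | ∃ p : Polynomial ℚ, p.natDegree ≤ N ∧ ∀ y : ℤ, f y = p.eval (y : ℚ)}
  zero_mem' := ⟨0, by simp, fun y => by simp⟩
  add_mem' := by
    rintro f g ⟨p, hp, hf⟩ ⟨q, hq, hg⟩
    exact ⟨p + q, (Polynomial.natDegree_add_le _ _).trans (max_le hp hq), fun y => by
      rw [Polynomial.eval_add, Pi.add_apply, hf, hg]⟩
  smul_mem' := by
    rintro c f ⟨p, hp, hf⟩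
    exact ⟨c • p, (Polynomial.natDegree_smul_le _ _).trans hp, fun y => by
      rw [Polynomial.eval_smul, Pi.smul_apply, hf]⟩

lemma bv_mem_Deg (i N : ℕ) (h : i ≤ N) (c : ℤ) : (fun y : ℤ => bv i (y + c)) ∈ Deg N := by
  refine ⟨(bp i).comp (Polynomial.X + Polynomial.C (c : ℚ)), ?_, fun y => ?_⟩
  · refine (Polynomial.natDegree_comp_le).trans ?_
    have h1 : (Polynomial.X + Polynomial.C (c : ℚ)).natDegree = 1 := Polynomial.natDegree_X_add_C _
    rw [h1, mul_one]
    exact (natDegree_bp i).trans h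
  · rw [Polynomial.eval_comp]
    simp [bv]

lemma GG_mem_Deg (n : ℕ) (k : Fin n → ℤ) (e : Fin (n + 1) → ℤ) :
    (fun y : ℤ => GG (n + 1) ((Fin.snoc k y : Fin (n + 1) → ℤ) + e)) ∈ Deg n := by
  have h : (fun y : ℤ => GG (n + 1) ((Fin.snoc k y : Fin (n + 1) → ℤ) + e)) =
      ∑ j : Fin (n + 1), ((-1) ^ ((Fin.last n : ℕ) + j : ℕ) *
        Matrix.det (Matrix.of fun (q : Fin n) (i : Fin n) =>
          bv (j.succAbove i) (k q + e q.castSucc))) • fun y : ℤ => bv j (y + e (Fin.last n)) := by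
    funext y
    rw [GG, Matrix.det_succ_row _ (Fin.last n), Finset.sum_apply]
    refine Finset.sum_congr rfl fun j _ => ?_
    rw [Pi.smul_apply, smul_eq_mul]
    have h1 : (Matrix.of fun (q : Fin (n + 1)) (i : Fin (n + 1)) =>
        bv i (((Fin.snoc k y : Fin (n + 1) → ℤ) + e) q)).submatrix (Fin.last n).succAbove
          j.succAbove = Matrix.of fun (q : Fin n) (i : Fin n) =>
          bv (j.succAbove i) (k q + e q.castSucc) := by
      ext q i
      simp [Fin.succAbove_last]
    rw [h1]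
    simp only [Matrix.of_apply, Pi.add_apply, Fin.snoc_last]
    ring
  rw [h]
  refine Submodule.sum_mem _ fun j _ => Submodule.smul_mem _ _ (bv_mem_Deg _ _ ?_ _)
  exact Nat.lt_succ_iff.1 j.2

/-- the degree of `α(n+1; k_1, ..., k_n, y)` in `y` is at most `n` -/
theorem W_mem_Deg (n : ℕ) (k : Fin n → ℤ) :
    (fun y : ℤ => W (GG (n + 1)) (Fin.snoc k y : Fin (n + 1) → ℤ)) ∈ Deg n := by
  have h : (fun y : ℤ => W (GG (n + 1)) (Fin.snoc k y : Fin (n + 1) → ℤ)) =
      ∑ e ∈ (SS (n + 1)).support, (MvPolynomial.coeff e (SS (n + 1))) •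
        fun y : ℤ => GG (n + 1) ((Fin.snoc k y : Fin (n + 1) → ℤ) + fun i => (e i : ℤ)) := by
    funext y
    rw [W, Finset.sum_apply]
    conv_lhs => rw [(SS (n + 1)).as_sum]
    rw [map_sum]
    exact Finset.sum_congr rfl fun e _ => ev_monomial _ _ _ _
  rw [h]
  exact Submodule.sum_mem _ fun e _ => Submodule.smul_mem _ _ (GG_mem_Deg n k _)

/-- the degree in the last variable, list form -/
theorem al_deg (l : List ℤ) : ∃ p : Polynomial ℚ, p.natDegree ≤ l.length ∧
    ∀ y : ℤ, (al (l.length + 1) (l ++ [y]) : ℚ) = p.eval (y : ℚ) := by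
  obtain ⟨p, hp, h⟩ := W_mem_Deg l.length l.get
  refine ⟨p, hp, fun y => ?_⟩
  rw [← h y]
  show _ = W (GG (l.length + 1)) _
  rw [← al_eq_W, ofFn_snoc', List.ofFn_get]

end

end Pool.Agent.X177.MT
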