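import Pool.Agent.X177.MT.Det

/-! # Polynomiality, uniqueness, rotation -/

set_option autoImplicit false

namespace Pool.Agent.X177.MT

open Finset

noncomputable section

/-- polynomial functions -/
def IsPoly {n : ℕ} (f : (Fin n → ℤ) → ℚ) : Prop :=
  ∃ P : MvPolynomial (Fin n) ℚ, ∀ k, f k = MvPolynomial.eval (fun i => (k i : ℚ)) P

namespace IsPoly

variable {n : ℕ} {f g : (Fin n → ℤ) → ℚ}

lemma const (c : ℚ) : IsPoly fun _ : Fin n → ℤ => c := ⟨MvPolynomial.C c, fun k => by simp⟩

lemma add (hf : IsPoly f) (hg : IsPoly g) : IsPoly fun k => f k + g k := by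
  obtain ⟨P, hP⟩ := hf
  obtain ⟨Q, hQ⟩ := hg
  exact ⟨P + Q, fun k => by show f k + g k = _; rw [map_add, hP, hQ]⟩

lemma mul (hf : IsPoly f) (hg : IsPoly g) : IsPoly fun k => f k * g k := by
  obtain ⟨P, hP⟩ := hf
  obtain ⟨Q, hQ⟩ := hg
  exact ⟨P * Q, fun k => by show f k * g k = _; rw [map_mul, hP, hQ]⟩

lemma sum {ι : Type*} (s : Finset ι) {F : ι → (Fin n → ℤ) → ℚ} (h : ∀ i ∈ s, IsPoly (F i)) :
    IsPoly fun k => ∑ i ∈ s, F i k := by
  classical
  induction s using Finset.induction_on with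
  | empty => simpa using const 0
  | insert a s ha ih =>
    simp only [Finset.sum_insert ha]
    exact (h a (Finset.mem_insert_self _ _)).add (ih fun i hi => h i (Finset.mem_insert_of_mem hi))

lemma prod {ι : Type*} (s : Finset ι) {F : ι → (Fin n → ℤ) → ℚ} (h : ∀ i ∈ s, IsPoly (F i)) :
    IsPoly fun k => ∏ i ∈ s, F i k := by
  classical
  induction s using Finset.induction_on with
  | empty => simpa using const 1
  | insert a s ha ih =>
    simp only [Finset.prod_insert ha]
    exact (h a (Finset.mem_insert_self _ _)).mul (ih fun i hi => h i (Finset.mem_insert_of_mem hi))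

lemma binom (i : ℕ) (q : Fin n) (c : ℤ) : IsPoly fun k : Fin n → ℤ => bv i (k q + c) := by
  refine ⟨Polynomial.aeval (MvPolynomial.X q + MvPolynomial.C (c : ℚ)) (bp i), fun k => ?_⟩
  show (bp i).eval (((k q + c : ℤ)) : ℚ) = _
  rw [Polynomial.aeval_def, MvPolynomial.algebraMap_eq, Polynomial.hom_eval₂]
  have : ((MvPolynomial.eval fun i => (k i : ℚ)).comp MvPolynomial.C) = RingHom.id ℚ := by
    ext
    simp
  rw [this, map_add, MvPolynomial.eval_X, MvPolynomial.eval_C, Polynomial.eval₂_id]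
  push_cast
  rfl

/-- composition with an integer affine map -/
lemma comp_affine (hf : IsPoly f) {m : ℕ} (L : Fin n → Fin m → ℤ) (c : Fin n → ℤ) :
    IsPoly fun k : Fin m → ℤ => f fun i => (∑ j, L i j * k j) + c i := by
  obtain ⟨P, hP⟩ := hf
  refine ⟨MvPolynomial.aeval (fun i => (∑ j, MvPolynomial.C (L i j : ℚ) * MvPolynomial.X j) +
    MvPolynomial.C (c i : ℚ)) P, fun k => ?_⟩
  show f _ = _
  rw [hP, MvPolynomial.aeval_def, MvPolynomial.algebraMap_eq, MvPolynomial.eval_eval₂]
  have : ((MvPolynomial.eval fun i => (k i : ℚ)).comp MvPolynomial.C) = RingHom.id ℚ := by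
    ext
    simp
  rw [this]
  have h2 : (fun i => MvPolynomial.eval (fun i => (k i : ℚ)) ((∑ j, MvPolynomial.C (L i j : ℚ) *
      MvPolynomial.X j) + MvPolynomial.C (c i : ℚ))) =
      fun i => (((∑ j, L i j * k j) + c i : ℤ) : ℚ) := by
    funext i
    simp
  rw [h2]
  rfl

end IsPoly

lemma isPoly_GG (n : ℕ) (c : Fin n → ℤ) : IsPoly fun k : Fin n → ℤ => GG n (k + c) := by
  simp only [GG, Matrix.det_apply]
  apply IsPoly.sum
  intro σ _
  have h : IsPoly fun k : Fin n → ℤ => ((Equiv.Perm.sign σ : ℤ) : ℚ) *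
      ∏ i : Fin n, bv i (k (σ i) + c (σ i)) :=
    (IsPoly.const _).mul (IsPoly.prod _ fun i _ => IsPoly.binom _ _ _)
  obtain ⟨P, hP⟩ := h
  refine ⟨P, fun k => ?_⟩
  rw [← hP]
  show Equiv.Perm.sign σ • (∏ i : Fin n, bv i (k (σ i) + c (σ i))) =
    ((Equiv.Perm.sign σ : ℤ) : ℚ) * ∏ i : Fin n, bv i (k (σ i) + c (σ i))
  rw [Units.smul_def, zsmul_eq_mul]

theorem isPoly_W (n : ℕ) : IsPoly (W (GG n)) := by
  have h : W (GG n) = fun k => ∑ e ∈ (SS n).support, (MvPolynomial.coeff e (SS n)) *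
      GG n (k + fun i => (e i : ℤ)) := by
    funext k
    rw [W]
    conv_lhs => rw [(SS n).as_sum]
    rw [map_sum]
    exact Finset.sum_congr rfl fun e _ => ev_monomial _ _ _ _
  rw [h]
  exact IsPoly.sum _ fun e _ => (IsPoly.const _).mul (isPoly_GG n _)

/-- a polynomial function along an integer line -/
lemma IsPoly.line {n : ℕ} {f : (Fin n → ℤ) → ℚ} (hf : IsPoly f) (k v : Fin n → ℤ) :
    ∃ p : Polynomial ℚ, ∀ t : ℤ, f (k + t • v) = p.eval (t : ℚ) := by
  obtain ⟨P, hP⟩ := hf
  refine ⟨MvPolynomial.aeval (fun i => Polynomial.C (k i : ℚ) + Polynomial.X *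
    Polynomial.C (v i : ℚ)) P, fun t => ?_⟩
  rw [hP, MvPolynomial.aeval_def, ← Polynomial.coe_evalRingHom, MvPolynomial.eval₂_comp_left
    (Polynomial.evalRingHom (t : ℚ))]
  have : (Polynomial.evalRingHom (t : ℚ)).comp (algebraMap ℚ (Polynomial ℚ)) = RingHom.id ℚ := by
    ext
    simp
  rw [this]
  have h2 : ((Polynomial.evalRingHom (t : ℚ)) ∘ fun i => Polynomial.C (k i : ℚ) + Polynomial.X *
      Polynomial.C (v i : ℚ)) = fun i => (((k + t • v) i : ℤ) : ℚ) := by
    funext i
    simp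
  rw [h2]
  rfl

/-- **uniqueness**: a polynomial function is determined by its values at increasing tuples -/
theorem IsPoly.ext_strictMono {n : ℕ} {f g : (Fin n → ℤ) → ℚ} (hf : IsPoly f) (hg : IsPoly g)
    (h : ∀ k, StrictMono k → f k = g k) (k : Fin n → ℤ) : f k = g k := by
  obtain ⟨p, hp⟩ := hf.line k (fun i => (i : ℤ))
  obtain ⟨q, hq⟩ := hg.line k (fun i => (i : ℤ))
  -- for large `t` the tuple is increasing
  obtain ⟨B, hB⟩ : ∃ B : ℤ, ∀ i, |k i| ≤ B := by
    refine ⟨∑ i, |k i|, fun i => Finset.single_le_sum (f := fun i => |k i|)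
      (fun i _ => abs_nonneg _) (Finset.mem_univ i)⟩
  have hmono : ∀ t : ℤ, 2 * B < t → StrictMono (k + t • fun i : Fin n => (i : ℤ)) := by
    intro t ht i j hij
    have h1 := abs_le.1 (hB i)
    have h2 := abs_le.1 (hB j)
    simp only [Pi.add_apply, Pi.smul_apply, smul_eq_mul]
    have h3 : (i : ℤ) + 1 ≤ j := by exact_mod_cast hij
    have hB0 : 0 ≤ B := (abs_nonneg _).trans (hB i)
    nlinarith
  have hpq : p = q := by
    apply Polynomial.eq_of_infinite_eval_eq
    apply Set.infinite_of_injective_forall_mem (f := fun l : ℕ => (((2 * B + 1 + l : ℤ)) : ℚ))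
    · intro a b hab
      simp only at hab
      have : (2 * B + 1 + (a : ℤ)) = 2 * B + 1 + b := by exact_mod_cast hab
      omega
    · intro l
      show p.eval _ = q.eval _
      rw [← hp, ← hq]
      exact h _ (hmono _ (by omega))
  have h0 := hp 0
  have h1 := hq 0
  rw [zero_smul, add_zero] at h0 h1
  rw [h0, h1, hpq]

/-- the two-term recursion `d(t) - d(t+1) + d(t+2) = 0` has no nonzero polynomial solution -/
lemma poly_zero {p : Polynomial ℚ}
    (h : ∀ t : ℤ, p.eval (t : ℚ) - p.eval ((t : ℚ) + 1) + p.eval ((t : ℚ) + 2) = 0) : p = 0 := by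
  have h3 : ∀ t : ℤ, p.eval ((t : ℚ) + 3) = - p.eval (t : ℚ) := by
    intro t
    have e1 := h t
    have e2 := h (t + 1)
    push_cast at e2
    rw [show (t : ℚ) + 1 + 1 = t + 2 by ring, show (t : ℚ) + 1 + 2 = t + 3 by ring] at e2
    linarith
  have h4 : p.comp (Polynomial.X + Polynomial.C 3) = - p := by
    apply Polynomial.eq_of_infinite_eval_eq
    apply Set.infinite_of_injective_forall_mem (f := fun l : ℕ => (l : ℚ))
    · exact Nat.cast_injective
    · intro l
      show (p.comp _).eval _ = (-p).eval _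
      rw [Polynomial.eval_comp, Polynomial.eval_neg]
      have := h3 l
      simpa using this
  have h5 := congrArg Polynomial.leadingCoeff h4
  rw [Polynomial.leadingCoeff_neg, Polynomial.leadingCoeff_comp (by
    rw [Polynomial.natDegree_X_add_C]; norm_num), Polynomial.leadingCoeff_X_add_C, one_pow,
    mul_one] at h5
  rw [← Polynomial.leadingCoeff_eq_zero]
  linarith

/-- polynomial functions along a line and evaluation functionals -/
lemma ev_line {n : ℕ} (k v : Fin n → ℤ) (p : MvPolynomial (Fin n) ℚ) :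
    ∃ P : Polynomial ℚ, ∀ t : ℤ, ev (GG n) (k + t • v) p = P.eval (t : ℚ) := by
  have h : IsPoly fun k => ev (GG n) k p := by
    have h : (fun k => ev (GG n) k p) = fun k => ∑ e ∈ p.support, (MvPolynomial.coeff e p) *
        GG n (k + fun i => (e i : ℤ)) := by
      funext k
      conv_lhs => rw [p.as_sum]
      rw [map_sum]
      exact Finset.sum_congr rfl fun e _ => ev_monomial _ _ _ _
    rw [h]
    exact IsPoly.sum _ fun e _ => (IsPoly.const _).mul (isPoly_GG n _)
  exact h.line k v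

lemma ev_X_pow_mul {n : ℕ} (g : (Fin n → ℤ) → ℚ) (k : Fin n → ℤ) (i : Fin n) (c : ℕ)
    (p : MvPolynomial (Fin n) ℚ) :
    ev g k (MvPolynomial.X i ^ c * p) = ev g (k + (c : ℤ) • un i) p := by
  induction c generalizing k with
  | zero => simp
  | succ c ih =>
    rw [pow_succ', mul_assoc, ev_X_mul, ih]
    congr 2
    rw [add_assoc]
    congr 1
    rw [Nat.cast_succ, add_smul, one_smul, add_comm]

/-- moving the first argument across all the others -/
theorem ev_cross {n : ℕ} (k : Fin (n + 1) → ℤ) (Y : MvPolynomial (Fin (n + 1)) ℚ) :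
    ev (GG (n + 1)) k (Y * ∏ q : Fin n, Sf 0 q.succ) =
      ev (GG (n + 1)) (k + (-((n : ℤ) + 1)) • un 0) (Y * ∏ q : Fin n, Sf q.succ 0) := by
  set a : MvPolynomial (Fin (n + 1)) ℚ := Y * ∏ q : Fin n, Sf 0 q.succ with ha
  set b : MvPolynomial (Fin (n + 1)) ℚ := Y * ∏ q : Fin n, Sf q.succ 0 with hb
  obtain ⟨Pa, hPa⟩ := ev_line (k + ((n : ℤ) + 1) • un 0) (un 0) a
  obtain ⟨Pb, hPb⟩ := ev_line k (un 0) b
  -- multiplication by `1 - X 0 + X 0 ^ 2`
  have hcore : ∀ (k : Fin (n + 1) → ℤ) (p : MvPolynomial (Fin (n + 1)) ℚ),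
      ev (GG (n + 1)) k p - ev (GG (n + 1)) (k + un 0) p + ev (GG (n + 1)) (k + (2:ℤ) • un 0) p =
        ev (GG (n + 1)) k (p * Sf 0 0) := by
    intro k p
    have h1 : p * Sf 0 0 = p - MvPolynomial.X 0 * p + MvPolynomial.X 0 ^ 2 * p := by
      simp only [Sf]
      ring
    rw [h1, map_add, map_sub, ev_X_mul, ev_X_pow_mul]
    rfl
  have hfa : ∀ k : Fin (n + 1) → ℤ, ev (GG (n + 1)) k (a * Sf 0 0) = ev (GG (n + 1)) k Y := by
    intro k
    have h1 : a * Sf 0 0 = Y * ∏ q : Fin (n + 1), (1 + MvPolynomial.X 0 * (MvPolynomial.X q - 1)) := by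
      rw [Fin.prod_univ_succ, ha]
      have h2 : ∀ q : Fin n, (1 + MvPolynomial.X 0 * (MvPolynomial.X q.succ - 1) :
          MvPolynomial (Fin (n + 1)) ℚ) = Sf 0 q.succ := by
        intro q
        simp only [Sf]
        ring
      simp only [h2]
      simp only [Sf]
      ring
    rw [h1, ev_GG_prod, one_pow, mul_one]
  have hfb : ∀ k : Fin (n + 1) → ℤ, ev (GG (n + 1)) k (b * Sf 0 0) =
      ev (GG (n + 1)) (k + ((n : ℤ) + 1) • un 0) Y := by
    intro k
    have h1 : b * Sf 0 0 = Y * ∏ q : Fin (n + 1), (MvPolynomial.X 0 +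
        (MvPolynomial.X 0 - 1) * (MvPolynomial.X q - 1)) := by
      rw [Fin.prod_univ_succ, hb]
      have h2 : ∀ q : Fin n, (MvPolynomial.X 0 + (MvPolynomial.X 0 - 1) *
          (MvPolynomial.X q.succ - 1) : MvPolynomial (Fin (n + 1)) ℚ) = Sf q.succ 0 := by
        intro q
        simp only [Sf]
        ring
      simp only [h2]
      simp only [Sf]
      ring
    rw [h1, ev_GG_prod, mul_comm, ev_X_pow_mul]
    push_cast
    rfl
  have hz : Pa - Pb = 0 := by
    apply poly_zero
    intro t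
    have e1 := hcore ((k + ((n : ℤ) + 1) • un 0) + t • un 0) a
    have e2 := hcore (k + t • un 0) b
    rw [hfa, hPa, add_assoc (k + ((n : ℤ) + 1) • un 0), add_assoc (k + ((n : ℤ) + 1) • un 0),
      ← add_one_zsmul, ← add_smul, hPa, hPa] at e1
    rw [hfb, hPb, add_assoc k, add_assoc k, ← add_one_zsmul, ← add_smul, hPb, hPb] at e2
    have e3 : k + ((n : ℤ) + 1) • un 0 + t • un 0 = k + t • un 0 + ((n : ℤ) + 1) • un (0 : Fin (n+1)) := by
      abel
    rw [e3] at e1
    push_cast at e1 e2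
    simp only [Polynomial.eval_sub]
    linarith
  have h1 := hPa (-((n : ℤ) + 1))
  have h2 := hPb (-((n : ℤ) + 1))
  rw [add_assoc, ← add_smul, add_neg_cancel, zero_smul, add_zero] at h1
  rw [h1, h2, sub_eq_zero.1 hz]

lemma SS_succ (n : ℕ) : SS (n + 1) = (∏ q : Fin n, Sf 0 q.succ) *
    ∏ p : Fin n, ∏ q : Fin n, if p < q then Sf p.succ q.succ else 1 := by
  rw [SS, Fin.prod_univ_succ, Fin.prod_univ_succ]
  congr 1
  · simp [Fin.succ_pos]
  · refine Finset.prod_congr rfl fun p _ => ?_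
    rw [Fin.prod_univ_succ, if_neg (by simp), one_mul]
    refine Finset.prod_congr rfl fun q _ => ?_
    simp [Fin.succ_lt_succ_iff]

lemma rename_SS_succ (n : ℕ) : MvPolynomial.rename (finRotate (n + 1)) (SS (n + 1)) =
    (∏ p : Fin n, ∏ q : Fin n, if p < q then Sf p.succ q.succ else 1) *
      ∏ q : Fin n, Sf q.succ 0 := by
  rw [SS, Fin.prod_univ_castSucc]
  have h1 : (∏ q : Fin (n + 1), if Fin.last n < q then Sf (Fin.last n) q else
      (1 : MvPolynomial (Fin (n + 1)) ℚ)) = 1 := by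
    apply Finset.prod_eq_one
    intro q _
    rw [if_neg (not_lt.2 (Fin.le_last q))]
  rw [h1, mul_one, map_prod, ← Finset.prod_mul_distrib]
  refine Finset.prod_congr rfl fun p _ => ?_
  rw [Fin.prod_univ_castSucc, map_mul, map_prod, if_pos (Fin.castSucc_lt_last p), rename_Sf,
    finRotate_last]
  have h2 : finRotate (n + 1) p.castSucc = p.succ := by
    rw [finRotate_apply, Fin.coeSucc_eq_succ]
  rw [h2]
  congr 1
  refine Finset.prod_congr rfl fun q _ => ?_
  simp only [Fin.castSucc_lt_castSucc_iff]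
  split_ifs
  · rw [rename_Sf, h2, finRotate_apply, Fin.coeSucc_eq_succ]
  · rw [map_one]

/-- **rotation**: `α(n; k_1, ..., k_n) = (-1)^(n-1) α(n; k_2, ..., k_n, k_1 - n)` -/
theorem rotation (n : ℕ) (k : Fin (n + 1) → ℤ) :
    W (GG (n + 1)) k = (-1) ^ n *
      W (GG (n + 1)) (fun i => if i = Fin.last n then k 0 - ((n : ℤ) + 1)
        else k (finRotate (n + 1) i)) := by
  have h1 : W (GG (n + 1)) k = ev (GG (n + 1)) k
      ((∏ p : Fin n, ∏ q : Fin n, if p < q then Sf p.succ q.succ else 1) *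
        ∏ q : Fin n, Sf 0 q.succ) := by
    rw [W, SS_succ, mul_comm]
  rw [h1, ev_cross, ← rename_SS_succ, ev_rename_anti (anti_GG _), sign_finRotate]
  push_cast
  congr 1
  rw [W]
  congr 1
  congr 1
  funext i
  simp only [Function.comp_apply, Pi.add_apply, Pi.smul_apply, smul_eq_mul, un]
  by_cases hi : i = Fin.last n
  · subst hi
    rw [if_pos rfl, finRotate_last, Pi.single_eq_same]
    ring
  · rw [if_neg hi, Pi.single_eq_of_ne, mul_zero, add_zero]
    intro h
    apply hi
    have : finRotate (n + 1) i = finRotate (n + 1) (Fin.last n) := by rw [h, finRotate_last]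
    exact (finRotate (n + 1)).injective this

/-- invariance under translation -/
theorem translation (n : ℕ) (k : Fin n → ℤ) (c : ℤ) :
    W (GG n) (fun i => k i + c) = W (GG n) k := by
  have h1 : ∀ k : Fin n → ℤ, W (GG n) (fun i => k i + 1) = W (GG n) k := by
    intro k
    have h2 := ev_GG_prod k (SS n) 1 1
    have h3 : (∏ q : Fin n, (1 + 1 * (MvPolynomial.X q - 1)) : MvPolynomial (Fin n) ℚ) =
        MvPolynomial.monomial (Finsupp.equivFunOnFinite.symm fun _ => 1) 1 := by
      rw [MvPolynomial.monomial_eq, Finsupp.prod_fintype]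
      · simp
      · simp
    rw [h3, one_pow, mul_one, mul_comm] at h2
    rw [W, W, ← h2]
    refine lin_ext (f := ev (GG n) (fun i => k i + 1)) (g := (ev (GG n) k).comp
      (LinearMap.mulLeft ℚ (MvPolynomial.monomial
        (Finsupp.equivFunOnFinite.symm fun _ => 1) (1:ℚ)))) ?_ (SS n)
    intro e
    rw [ev_monomial, LinearMap.comp_apply, LinearMap.mulLeft_apply,
      MvPolynomial.monomial_mul, ev_monomial]
    simp only [one_mul]
    congr 1
    funext j
    simp
    ring
  induction c using Int.induction_on with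
  | zero => simp
  | succ i ih =>
    rw [← ih, ← h1 (fun j => k j + i)]
    congr 1
    funext j
    ring
  | pred i ih =>
    rw [← ih, ← h1 (fun j => k j + (-(i:ℤ) - 1))]
    congr 1
    funext j
    ring

end

end Pool.Agent.X177.MT
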