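import Pool.Agent.X330.MT.Chain

/-! # The product of two consecutive increasing words

If the nabla products of the letters satisfy the identity `J`, then
`P_N P_(N-1) = Om_[2,N] a_1`. -/

set_option autoImplicit false

namespace Pool.Agent.X177.MTTN

open Pool.Agent.X287.MTRing Pool.Agent.X330.MT

variable {A : Type*} [Ring A]

/-- `∇t_p ∇t_(p+1) ⋯ ∇t_(p+n-1)` where `∇t_x = t_x - t_(x-1)`. -/
def NB (t : ℤ → A) (p : ℤ) : ℕ → A
  | 0 => 1
  | n + 1 => NB t p n * (t (p + n) - t (p + n - 1))

/-- The identity `J`. -/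
def J (t : ℤ → A) (p : ℤ) : Prop := ∀ n : ℕ,
  NB t p (n + 1) = - (P t p n * t (p - 1)) + (-1 : ℤ) ^ n • (t (p + n) * P t p n)

theorem sq_slide {t : ℤ → A} (h : Rel t) (p : ℤ) (k : ℕ) :
    P t p (k + 1) * t (p + k) = t p * P t p (k + 1) := by
  induction k with
  | zero => simp [P, inc]
  | succ k ih =>
    have e1 : p + ((k + 1 : ℕ) : ℤ) = p + k + 1 := by push_cast; ring
    have a := h.adj (p + k)
    have c := h.cube (p + k + 1)
    have h1 : t (p + k) * (t (p + k + 1) * t (p + k + 1)) =
        t (p + k) * (t (p + k) * t (p + k + 1)) := by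
      calc t (p + k) * (t (p + k + 1) * t (p + k + 1))
          = (t (p + k) * t (p + k + 1)) * t (p + k + 1) := by rw [mul_assoc]
        _ = (t (p + k) * t (p + k) + t (p + k + 1) * t (p + k + 1)) * t (p + k + 1) := by rw [a]
        _ = t (p + k) * (t (p + k) * t (p + k + 1)) +
            t (p + k + 1) * (t (p + k + 1) * t (p + k + 1)) := by noncomm_ring
        _ = t (p + k) * (t (p + k) * t (p + k + 1)) := by rw [c, add_zero]
    calc P t p (k + 1 + 1) * t (p + ((k + 1 : ℕ) : ℤ))
        = P t p k * (t (p + k) * (t (p + k + 1) * t (p + k + 1))) := by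
          rw [P_succ_right t p (k + 1), P_succ_right t p k, e1]
          simp only [mul_assoc]
      _ = P t p k * (t (p + k) * (t (p + k) * t (p + k + 1))) := by rw [h1]
      _ = (P t p (k + 1) * t (p + k)) * t (p + k + 1) := by
          rw [P_succ_right t p k]
          simp only [mul_assoc]
      _ = t p * P t p (k + 1 + 1) := by
          rw [ih, P_succ_right t p (k + 1), e1, mul_assoc]

/-- `Om_[p+1,p+k] t_p t_(p+j) = Om_[p,p+k]` for `j ≤ k` -/
theorem om_y {t : ℤ → A} (h : Rel t) (p : ℤ) (k : ℕ) (j : ℕ) (hj : j ≤ k) :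
    Om t (p + 1) k * (t p * t (p + j)) = Om t p (k + 1) := by
  induction j with
  | zero => rw [Om_succ_right]; simp
  | succ j ih =>
    have ih := ih (by omega)
    have e1 : p + ((j + 1 : ℕ) : ℤ) = p + j + 1 := by push_cast; ring
    rw [e1]
    have k1 : Om t (p + 1) k * t (p + 1) = 0 := h.Om_mul (p + 1) k (by omega) (by omega)
    have k2 : Om t (p + 1) k * t (p + j + 1) = 0 := h.Om_mul (p + 1) k (by omega) (by omega)
    rcases Nat.eq_zero_or_pos j with hj0 | hj0
    · subst hj0
      simp only [Nat.cast_zero, add_zero] at ih ⊢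
      rw [h.adj p, mul_add, ih, ← mul_assoc (Om t (p + 1) k) (t (p + 1)), k1]
      simp
    · have k3 : Om t (p + 1) k * t (p + j) = 0 := h.Om_mul (p + 1) k (by omega) (by omega)
      have r := h.rel p (p + j)
      have r2 := congrArg (Om t (p + 1) k * ·) r
      simp only [mul_add, mul_sub, mul_zero, ← mul_assoc, k1, k2, k3, zero_mul] at r2
      rw [← mul_assoc] at ih
      rw [← mul_assoc, ← ih]
      have : Om t (p + 1) k * t p * t (p + j) - Om t (p + 1) k * t p * t (p + j + 1) = 0 := by
        rw [← r2]; abel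
      rw [sub_eq_zero] at this
      exact this.symm

theorem B_mul {t : ℤ → A} (h : Rel t) (p : ℤ) (k : ℕ) : B t p (k + 1) * t p = Om t p (k + 1) := by
  rw [B_succ_right, add_mul, mul_assoc, mul_assoc, h.cube, mul_zero, zero_add, mul_assoc,
    Om_succ_right]

theorem om_ab {t : ℤ → A} (h : Rel t) (p : ℤ) (k : ℕ) :
    Om t (p + 1) k * (t p * t (p + k + 1)) =
      Om t p (k + 1) + (-1 : ℤ) ^ k • Om t (p + 1) (k + 1) := by
  have e := h.E' (p + 1) k
  have e2 : Om t (p + 1) k * (t (p + 1 + k) * t (p + 1)) = (-1 : ℤ) ^ k • Om t (p + 1) (k + 1) := by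
    rw [← mul_assoc, e, smul_mul_assoc, B_mul h]
  have e3 : p + 1 + (k : ℤ) = p + k + 1 := by ring
  rw [e3] at e2
  rcases Nat.eq_zero_or_pos k with hk | hk
  · subst hk
    simp only [Nat.cast_zero, add_zero, pow_zero, one_smul] at e2 ⊢
    rw [h.adj p, mul_add, e2, Om_succ_right t p 0]
  · have k1 : Om t (p + 1) k * t (p + 1) = 0 := h.Om_mul (p + 1) k (by omega) (by omega)
    have k3 : Om t (p + 1) k * t (p + k) = 0 := h.Om_mul (p + 1) k (by omega) (by omega)
    have y := om_y h p k k le_rfl
    have r := h.rel p (p + k)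
    have r2 := congrArg (Om t (p + 1) k * ·) r
    simp only [mul_add, mul_sub, mul_zero, ← mul_assoc, k1, k3, zero_mul] at r2
    rw [← mul_assoc] at y e2 ⊢
    rw [← y, ← e2]
    have : Om t (p + 1) k * t p * t (p + k + 1) - (Om t (p + 1) k * t p * t (p + k) +
      Om t (p + 1) k * t (p + k + 1) * t (p + 1)) = 0 := by
      rw [← neg_eq_zero, ← r2]; abel
    rw [sub_eq_zero] at this
    exact this

/-- `P_(N-1) a_(N-1) P_(N-1) = 0` -/
theorem van_mid {t : ℤ → A} (h : Rel t) (p : ℤ) (k : ℕ) :
    P t p (k + 1) * (t (p + k) * P t p (k + 1)) = 0 := by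
  have := h.vanish p (k + 1) (inc p (k + 1) ++ ((p + k) :: inc p (k + 1))) ?_ ?_
  · rw [List.map_append, List.prod_append, List.map_cons, List.prod_cons] at this
    exact this
  · intro x hx
    rw [List.mem_append, List.mem_cons] at hx
    rcases hx with hx | rfl | hx
    · exact inc_mem p (k + 1) x hx
    · push_cast; constructor <;> omega
    · exact inc_mem p (k + 1) x hx
  · simp [inc_len]
    omega

/-- **the product of two consecutive increasing words** -/
theorem P_mul_P_pred {t : ℤ → A} (h : Rel t) (p : ℤ) (hJ : J t p) (k : ℕ) :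
    P t p (k + 1) * P t p k = Om t (p + 1) k * t p := by
  induction k with
  | zero => simp [P, inc, Om]
  | succ k ih =>
    have e1 : p + ((k + 1 : ℕ) : ℤ) = p + k + 1 := by push_cast; ring
    have hJ1 := hJ (k + 1)
    have hJ0 := hJ k
    rw [e1] at hJ1
    have hNB : NB t p (k + 1 + 1) = NB t p (k + 1) * (t (p + k + 1) - t (p + k)) := by
      rw [NB, e1]
      congr 3
      ring
    have hP1 : P t p (k + 1) = P t p k * t (p + k) := P_succ_right t p k
    have hP2 : P t p (k + 1 + 1) = P t p (k + 1) * t (p + k + 1) := by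
      rw [P_succ_right t p (k + 1), e1]
    have f2 := om_y h p k k le_rfl
    have f3 : Om t p (k + 1) * t p = 0 := h.Om_mul p (k + 1) (by omega) (by push_cast; omega)
    have f3' : Om t p (k + 1) = Om t (p + 1) k * (t p * t p) := Om_succ_right t p k
    have f4 := van_mid h p k
    have f5 : P t p (k + 1) * (t (p + k) * P t p k) = (-1 : ℤ) ^ k • Om t p (k + 1) := by
      rw [← mul_assoc, sq_slide h, mul_assoc, ih, ← mul_assoc, h.E, smul_mul_assoc, B_mul h]
    have f6 : t (p - 1) * (t (p + k + 1) - t (p + k)) = t p * t (p + k + 1) + t (p + k + 1) * t p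
        - t (p + k) * t p + t (p + k) * t (p - 1) := by
      have r := h.rel (p - 1) (p + k)
      rw [sub_add_cancel] at r
      rw [← sub_eq_zero, ← neg_eq_zero, ← r]
      noncomm_ring
    have f7 := h.cub (p + k + 1) p
    have f8 := om_ab h p k
    have hsq : P t p (k + 1) * P t p (k + 1) = Om t p (k + 1) := by
      conv_lhs => rw [hP1]
      rw [← hP1, hP1, ← mul_assoc, ← hP1, ih, mul_assoc, f2]
    -- the two expressions
    set a := t p with ha
    set b := t (p + k + 1) with hb
    set c := t (p + k) with hc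
    set z := t (p - 1) with hz
    set O' := Om t (p + 1) k with hO'
    set O1 := Om t p (k + 1) with hO1
    set O2 := Om t (p + 1) (k + 1) with hO2
    set Q := P t p (k + 1) with hQ
    set R := P t p k with hR
    have w1 : Q * NB t p (k + 1 + 1) = - (O1 * z) + (-1 : ℤ) ^ (k + 1) • (Q * b * Q) := by
      rw [hJ1, mul_add, mul_neg, ← mul_assoc, hsq, mul_smul_comm, mul_assoc]
    have w2 : Q * NB t p (k + 1 + 1) = O' * (b * (a * a)) - O1 * z + O1 * b := by
      have s1 : Q * (c * R) * b = (-1 : ℤ) ^ k • (O1 * b) := by rw [f5, smul_mul_assoc]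
      have s2 : Q * (c * R) * c = 0 := by
        rw [mul_assoc, mul_assoc, ← hP1, f4]
      calc Q * NB t p (k + 1 + 1)
          = - (Q * R * (z * (b - c))) + (-1 : ℤ) ^ k • (Q * (c * R) * (b - c)) := by
            rw [hNB, hJ0]
            simp only [mul_add, add_mul, mul_neg, neg_mul, mul_smul_comm, smul_mul_assoc,
              mul_assoc]
        _ = - (O' * a * (a * b + b * a - c * a + c * z)) + O1 * b := by
            rw [ih, f6, mul_sub, s1, s2, sub_zero, smul_smul, ← mul_pow]
            simp
        _ = - (O' * (a * (a * b) + a * (b * a))) + O' * (a * c) * a - O' * (a * c) * z + O1 * b := by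
            noncomm_ring
        _ = O' * (b * (a * a)) - O1 * z + O1 * b := by
            have : a * (a * b) + a * (b * a) = - (b * (a * a)) := by
              rw [← sub_eq_zero, ← f7]; abel
            rw [this, f2, f3]
            simp
    have w3 : (-1 : ℤ) ^ (k + 1) • (Q * b * Q) = O' * (b * (a * a)) + O1 * b := by
      have := w1.symm.trans w2
      rw [← sub_eq_zero] at this ⊢
      rw [← this]
      abel
    have w4 : O' * (b * (a * a)) + O1 * b = - (O' * (a * b) * a) := by
      rw [f3', ← sub_eq_zero]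
      have : O' * (b * (a * a)) + O' * (a * a) * b - -(O' * (a * b) * a) =
          O' * (b * (a * a) + a * (b * a) + a * (a * b)) := by noncomm_ring
      rw [this, f7, mul_zero]
    rw [w4, f8, add_mul, f3, zero_add, smul_mul_assoc] at w3
    have w5 : Q * b * Q = O2 * a := by
      have h1 : (-1 : ℤ) ^ (k + 1) = - (-1) ^ k := by rw [pow_succ]; ring
      rw [h1, neg_smul, neg_inj] at w3
      have := congrArg ((-1 : ℤ) ^ k • ·) w3
      simp only [smul_smul, ← mul_pow] at this
      simpa using this
    rw [hP2]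
    exact w5

end Pool.Agent.X177.MTTN
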